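import Mathlib
import Pool.Agent.H438R2.PD.Core
import Pool.Agent.H789R2.FR.Sph
import Pool.Agent.Y295.NS.D
set_option autoImplicit false
set_option linter.unusedSectionVars false

/-! The `L^q` functional of the extension operator of the sphere and windows. -/

namespace Pool.Agent.Y295.SP

open MeasureTheory Set Complex Filter Topology
open scoped ENNReal NNReal RealInnerProductSpace
open Pool.Agent.H789R2.FR (E sg T sg_finite sg_ae)
open Pool.Agent.H438R2.PD (T_meas')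
open Pool.Agent.W354.LS (tri tri_nonneg tri_le_one)
open Pool.Agent.Y295.NS (fj fj_nonneg fj_integrable fj_lint fj_tri fj_cont jensen tri_cont ramp ramp_sum
  ramp_cont ramp_mem ind_lim)
open Pool.Agent.TH277.HT (ch ch_norm ch_cont ch_add)

variable {n : ℕ}

instance sgf (n : ℕ) : IsFiniteMeasure (sg n) := sg_finite n

/-- character -/
noncomputable def ex (x w : E n) : ℂ := Complex.exp (-((⟪x, w⟫ : ℝ) : ℂ) * I)

lemma ex_norm (x w : E n) : ‖ex x w‖ = 1 := by
  unfold ex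
  rw [show -((⟪x, w⟫ : ℝ) : ℂ) * I = ((-⟪x, w⟫ : ℝ) : ℂ) * I by push_cast; ring]
  exact norm_exp_ofReal_mul_I _

lemma ex_cont : Continuous fun p : E n × E n => ex p.1 p.2 := by
  unfold ex
  fun_prop

lemma ex_cont' (x : E n) : Continuous fun w : E n => ex x w := by
  unfold ex
  fun_prop

lemma T_def (g : E n → ℂ) (x : E n) : T g x = ∫ w, ex x w * g w ∂(sg n) := rfl

lemma T_int (g : E n → ℂ) (hg : Integrable g (sg n)) (x : E n) :
    Integrable (fun w => ex x w * g w) (sg n) := by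
  refine hg.norm.mono' ((ex_cont' x).aestronglyMeasurable.mul hg.1) (ae_of_all _ fun w => ?_)
  rw [norm_mul, ex_norm, one_mul]

lemma T_sup (g : E n → ℂ) (x : E n) : ‖T g x‖ₑ ≤ ∫⁻ w, ‖g w‖ₑ ∂(sg n) := by
  rw [T_def]
  refine (enorm_integral_le_lintegral_enorm _).trans (le_of_eq ?_)
  apply lintegral_congr
  intro w
  rw [enorm_mul, ← ofReal_norm (ex x w), ex_norm, ENNReal.ofReal_one, one_mul]

/-- the `L^q` norm of the extension -/
noncomputable def LL (q : ℝ) (g : E n → ℂ) : ℝ≥0∞ := (∫⁻ x, ‖T g x‖ₑ ^ q) ^ (1 / q)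

lemma T_add (f g : E n → ℂ) (hf : Integrable f (sg n)) (hg : Integrable g (sg n)) (x : E n) :
    T (fun w => f w + g w) x = T f x + T g x := by
  rw [T_def, T_def, T_def, ← integral_add (T_int f hf x) (T_int g hg x)]
  simp only [mul_add]

lemma T_smul (c : ℂ) (f : E n → ℂ) (x : E n) : T (fun w => c * f w) x = c * T f x := by
  rw [T_def, T_def, ← integral_const_mul]
  congr 1
  ext w
  ring

lemma T_congr {f g : E n → ℂ} (h : f =ᵐ[sg n] g) (x : E n) : T f x = T g x := by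
  rw [T_def, T_def]
  apply integral_congr_ae
  filter_upwards [h] with w hw
  rw [hw]

lemma LL_congr (q : ℝ) {f g : E n → ℂ} (h : f =ᵐ[sg n] g) : LL q f = LL q g := by
  unfold LL
  simp only [T_congr h]

lemma LL_add (q : ℝ) (hq : 1 ≤ q) (f g : E n → ℂ) (hf : Integrable f (sg n)) (hg : Integrable g (sg n))
    (hfm : Measurable f) (hgm : Measurable g) : LL q (fun w => f w + g w) ≤ LL q f + LL q g := by
  unfold LL
  refine le_trans ?_ (ENNReal.lintegral_Lp_add_le (T_meas' f hfm).enorm.aemeasurable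
    (T_meas' g hgm).enorm.aemeasurable hq)
  apply ENNReal.rpow_le_rpow _ (by positivity)
  apply lintegral_mono
  intro p
  apply ENNReal.rpow_le_rpow _ (by linarith)
  rw [T_add f g hf hg p]
  exact enorm_add_le _ _

lemma LL_smul (q : ℝ) (hq : 1 ≤ q) (c : ℂ) (f : E n → ℂ) (hfm : Measurable f) :
    LL q (fun w => c * f w) = ‖c‖ₑ * LL q f := by
  unfold LL
  have h0 : 0 ≤ q := by linarith
  have h : ∀ p, ‖T (fun w => c * f w) p‖ₑ ^ q = ‖c‖ₑ ^ q * ‖T f p‖ₑ ^ q := by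
    intro p
    rw [T_smul, enorm_mul, ENNReal.mul_rpow_of_nonneg _ _ h0]
  simp only [h]
  rw [lintegral_const_mul _ ((T_meas' f hfm).enorm.pow_const q),
    ENNReal.mul_rpow_of_nonneg _ _ (by positivity), ← ENNReal.rpow_mul, mul_one_div_cancel (by linarith),
    ENNReal.rpow_one]

lemma LL_zero (q : ℝ) (hq : 0 < q) : LL q (fun _ : E n => (0 : ℂ)) = 0 := by
  have h : ∀ p : E n, T (fun _ => (0 : ℂ)) p = 0 := by
    intro p
    rw [T_def]
    simp
  unfold LL
  simp only [h, enorm_zero]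
  rw [ENNReal.zero_rpow_of_pos hq, lintegral_zero, ENNReal.zero_rpow_of_pos (by positivity)]

lemma LL_sum (q : ℝ) (hq : 1 ≤ q) {ι : Type*} (s : Finset ι) (f : ι → E n → ℂ)
    (hf : ∀ i, Integrable (f i) (sg n)) (hfm : ∀ i, Measurable (f i)) :
    LL q (fun w => ∑ i ∈ s, f i w) ≤ ∑ i ∈ s, LL q (f i) := by
  classical
  induction s using Finset.induction_on with
  | empty =>
    simp only [Finset.sum_empty]
    rw [LL_zero q (by linarith)]
  | insert a s ha ih =>
    simp only [Finset.sum_insert ha]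
    refine (LL_add q hq _ _ (hf a) ?_ (hfm a) ?_).trans (add_le_add le_rfl ih)
    · exact integrable_finsetSum s fun i _ => hf i
    · exact Finset.measurable_sum s fun i _ => hfm i

/-- limits in `L^1` -/
lemma LL_lim (q : ℝ) (hq : 1 ≤ q) (f : E n → ℂ) (g : ℕ → E n → ℂ) (hf : Integrable f (sg n))
    (hg : ∀ n', Integrable (g n') (sg n)) (hgm : ∀ n', Measurable (g n'))
    (hl : Tendsto (fun n' => ∫⁻ w, ‖g n' w - f w‖ₑ ∂(sg n)) atTop (𝓝 0)) (C : ℝ≥0∞)
    (hC : ∀ n', LL q (g n') ≤ C) : LL q f ≤ C := by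
  have hq0 : 0 < q := by linarith
  have hpt : ∀ p, Tendsto (fun n' => ‖T (g n') p‖ₑ ^ q) atTop (𝓝 (‖T f p‖ₑ ^ q)) := by
    intro p
    apply Tendsto.ennrpow_const
    apply Tendsto.enorm
    rw [tendsto_iff_edist_tendsto_0]
    refine tendsto_of_tendsto_of_tendsto_of_le_of_le tendsto_const_nhds hl (fun n' => zero_le) (fun n' => ?_)
    rw [edist_eq_enorm_sub]
    have e : T (g n') p - T f p = T (fun w => g n' w - f w) p := by
      rw [T_def, T_def, T_def, ← integral_sub (T_int _ (hg n') p) (T_int f hf p)]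
      simp only [mul_sub]
    rw [e]
    exact T_sup _ _
  have h1 : ∫⁻ p, ‖T f p‖ₑ ^ q ≤ liminf (fun n' => ∫⁻ p, ‖T (g n') p‖ₑ ^ q) atTop := by
    calc ∫⁻ p, ‖T f p‖ₑ ^ q = ∫⁻ p, liminf (fun n' => ‖T (g n') p‖ₑ ^ q) atTop :=
          lintegral_congr fun p => (hpt p).liminf_eq.symm
      _ ≤ _ := lintegral_liminf_le fun n' => (T_meas' (g n') (hgm n')).enorm.pow_const q
  have h2 : ∀ n', ∫⁻ p, ‖T (g n') p‖ₑ ^ q ≤ C ^ q := by
    intro n'
    have h3 := ENNReal.rpow_le_rpow (hC n') hq0.le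
    unfold LL at h3
    rw [← ENNReal.rpow_mul, one_div_mul_cancel hq0.ne', ENNReal.rpow_one] at h3
    exact h3
  have h4 : ∫⁻ p, ‖T f p‖ₑ ^ q ≤ C ^ q := by
    refine h1.trans ?_
    have h5 : liminf (fun n' => ∫⁻ p, ‖T (g n') p‖ₑ ^ q) atTop ≤ liminf (fun _ : ℕ => C ^ q) atTop :=
      liminf_le_liminf (Filter.Eventually.of_forall h2)
    exact h5.trans (le_of_eq (by simp))
  unfold LL
  calc _ ≤ (C ^ q) ^ (1 / q) := ENNReal.rpow_le_rpow h4 (by positivity)
    _ = C := by rw [← ENNReal.rpow_mul, mul_one_div_cancel hq0.ne', ENNReal.rpow_one]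

/-- pointwise dominated limits -/
lemma LL_dom (q : ℝ) (hq : 1 ≤ q) (f F : E n → ℂ) (g : ℕ → E n → ℂ) (hF : Integrable F (sg n))
    (hfm : Measurable f) (hgm : ∀ n', Measurable (g n')) (hfF : ∀ z, ‖f z‖ ≤ ‖F z‖)
    (hgF : ∀ n' z, ‖g n' z‖ ≤ ‖F z‖) (hl : ∀ z, Tendsto (fun n' => g n' z) atTop (𝓝 (f z))) (C : ℝ≥0∞)
    (hC : ∀ n', LL q (g n') ≤ C) : LL q f ≤ C := by
  have hf : Integrable f (sg n) := hF.norm.mono' hfm.aestronglyMeasurable (ae_of_all _ hfF)
  have hg : ∀ n', Integrable (g n') (sg n) := fun n' =>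
    hF.norm.mono' (hgm n').aestronglyMeasurable (ae_of_all _ (hgF n'))
  refine LL_lim q hq f g hf hg hgm ?_ C hC
  have h1 := tendsto_lintegral_of_dominated_convergence (μ := sg n)
    (F := fun n' z => ‖g n' z - f z‖ₑ) (f := fun _ => 0) (fun z => 2 * ‖F z‖ₑ)
    (fun n' => ((hgm n').sub hfm).enorm) (fun n' => ae_of_all _ fun z => ?_) ?_ (ae_of_all _ fun z => ?_)
  · simpa using h1
  · simp only
    calc ‖g n' z - f z‖ₑ ≤ ‖g n' z‖ₑ + ‖f z‖ₑ := enorm_sub_le
      _ ≤ ‖F z‖ₑ + ‖F z‖ₑ := by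
          gcongr
          · rw [← ofReal_norm, ← ofReal_norm]
            exact ENNReal.ofReal_le_ofReal (hgF n' z)
          · rw [← ofReal_norm, ← ofReal_norm]
            exact ENNReal.ofReal_le_ofReal (hfF z)
      _ = 2 * ‖F z‖ₑ := (two_mul _).symm
  · rw [lintegral_const_mul' _ _ (by norm_num)]
    exact ENNReal.mul_ne_top (by norm_num) hF.2.ne
  · have h2 : Tendsto (fun n' => g n' z - f z) atTop (𝓝 (f z - f z)) := (hl z).sub tendsto_const_nhds
    rw [sub_self] at h2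
    have h3 := h2.enorm
    simpa using h3

lemma LL_pow (q : ℝ) (hq : 0 < q) (f : E n → ℂ) : LL q f ^ q = ∫⁻ p, ‖T f p‖ₑ ^ q := by
  unfold LL
  rw [← ENNReal.rpow_mul, one_div_mul_cancel hq.ne', ENNReal.rpow_one]

/-- larger exponents through the supremum -/
lemma LL_up (q q' : ℝ) (hq' : 0 < q') (hqq : q' ≤ q) (f : E n → ℂ) (hfm : Measurable f) :
    LL q f ≤ (∫⁻ w, ‖f w‖ₑ ∂(sg n)) ^ (1 - q' / q) * LL q' f ^ (q' / q) := by
  have hq0 : 0 < q := by linarith
  have h1 : ∫⁻ p, ‖T f p‖ₑ ^ q ≤ (∫⁻ w, ‖f w‖ₑ ∂(sg n)) ^ (q - q') * ∫⁻ p, ‖T f p‖ₑ ^ q' := by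
    rw [← lintegral_const_mul _ ((T_meas' f hfm).enorm.pow_const q')]
    apply lintegral_mono
    intro p
    simp only
    have e : ‖T f p‖ₑ ^ q = ‖T f p‖ₑ ^ (q - q') * ‖T f p‖ₑ ^ q' := by
      rw [← ENNReal.rpow_add_of_nonneg _ _ (by linarith) (by linarith)]
      congr 1
      ring
    rw [e]
    refine mul_le_mul' ?_ le_rfl
    exact ENNReal.rpow_le_rpow (T_sup f p) (by linarith)
  have h2 := ENNReal.rpow_le_rpow h1 (z := 1 / q) (by positivity)
  rw [ENNReal.mul_rpow_of_nonneg _ _ (by positivity), ← ENNReal.rpow_mul, ← LL_pow q' hq',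
    ← ENNReal.rpow_mul] at h2
  unfold LL at h2 ⊢
  refine h2.trans (le_of_eq ?_)
  congr 2
  · field_simp
  · ring

/-- superpositions with modulations: if `T (G ⬝ c_w)` is a translate for every `w`. -/
lemma T_mod (G : E n → ℂ) (ζ x : E n) :
    T (fun w => ex ζ w * G w) x = T G (x + ζ) := by
  rw [T_def, T_def]
  apply integral_congr_ae
  refine ae_of_all _ fun w => ?_
  simp only
  rw [← mul_assoc]
  congr 1
  unfold ex
  rw [← Complex.exp_add, inner_add_left]
  congr 1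
  push_cast
  ring

lemma LL_mod (q : ℝ) (G : E n → ℂ) (ζ : E n) : LL q (fun w => ex ζ w * G w) = LL q G := by
  unfold LL
  simp only [T_mod]
  rw [lintegral_add_right_eq_self (fun x => ‖T G x‖ₑ ^ q) ζ]

/-- Minkowski for a probability weight -/
lemma LL_mix {Ω : Type*} [MeasurableSpace Ω] (μ : Measure Ω) [SFinite μ] (q : ℝ) (hq : 1 ≤ q) (G : E n → ℂ)
    (K : Ω → E n → ℂ) (φ : Ω → ℝ≥0∞) (hφ : Measurable φ) (hφ1 : ∫⁻ w, φ w ∂μ ≤ 1)
    (hKm : Measurable fun y : E n × Ω => T (K y.2) y.1)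
    (hpt : ∀ x, ‖T G x‖ₑ ≤ ∫⁻ w, φ w * ‖T (K w) x‖ₑ ∂μ) (B : ℝ≥0∞)
    (hB : ∀ w, LL q (K w) ≤ B) : LL q G ≤ B := by
  have hq0 : 0 < q := by linarith
  have hm2 : Measurable fun y : E n × Ω => φ y.2 * ‖T (K y.2) y.1‖ₑ ^ q :=
    (hφ.comp measurable_snd).mul (hKm.enorm.pow_const q)
  have h1 : ∫⁻ x, ‖T G x‖ₑ ^ q ≤ B ^ q := by
    calc ∫⁻ x, ‖T G x‖ₑ ^ q ≤ ∫⁻ x, ∫⁻ w, φ w * ‖T (K w) x‖ₑ ^ q ∂μ := by
          apply lintegral_mono
          intro x
          simp only
          have h2 := jensen μ φ (fun w => ‖T (K w) x‖ₑ) hφ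
            (hKm.comp (measurable_const.prodMk measurable_id)).enorm q hq
          refine (ENNReal.rpow_le_rpow (hpt x) hq0.le).trans (h2.trans ?_)
          calc (∫⁻ w, φ w ∂μ) ^ (q - 1) * ∫⁻ w, φ w * ‖T (K w) x‖ₑ ^ q ∂μ
              ≤ 1 ^ (q - 1) * ∫⁻ w, φ w * ‖T (K w) x‖ₑ ^ q ∂μ := by
                gcongr
            _ = _ := by rw [ENNReal.one_rpow, one_mul]
      _ = ∫⁻ w, (∫⁻ x, φ w * ‖T (K w) x‖ₑ ^ q) ∂μ := lintegral_lintegral_swap hm2.aemeasurable
      _ ≤ ∫⁻ w, φ w * B ^ q ∂μ := by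
          apply lintegral_mono
          intro w
          simp only
          have hmw : Measurable fun x : E n => ‖T (K w) x‖ₑ ^ q :=
            (hKm.comp (measurable_id.prodMk measurable_const)).enorm.pow_const q
          rw [lintegral_const_mul _ hmw]
          gcongr
          rw [← LL_pow q hq0]
          exact ENNReal.rpow_le_rpow (hB w) hq0.le
      _ ≤ B ^ q := by
          rw [lintegral_mul_const _ hφ]
          calc (∫⁻ w, φ w ∂μ) * B ^ q ≤ 1 * B ^ q := by gcongr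
            _ = _ := one_mul _
  unfold LL
  calc _ ≤ (B ^ q) ^ (1 / q) := ENNReal.rpow_le_rpow h1 (by positivity)
    _ = B := by rw [← ENNReal.rpow_mul, mul_one_div_cancel hq0.ne', ENNReal.rpow_one]

/-- joint measurability -/
lemma T_joint {Ω : Type*} [MeasurableSpace Ω] (K : Ω → E n → ℂ)
    (hK : Measurable fun y : E n × Ω => K y.2 y.1) :
    Measurable fun y : E n × Ω => T (K y.2) y.1 := by
  have h2 : Measurable fun p : (E n × Ω) × E n => ex p.1.1 p.2 := by
    have h3 : Measurable fun p : (E n × Ω) × E n => (p.1.1, p.2) :=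
      (measurable_fst.comp measurable_fst).prodMk measurable_snd
    have h4 : Measurable fun p : E n × E n => ex p.1 p.2 := ex_cont.measurable
    have h5 := h4.comp h3
    exact h5
  have h5 : Measurable fun p : (E n × Ω) × E n => K p.1.2 p.2 := by
    have h3 : Measurable fun p : (E n × Ω) × E n => (p.2, p.1.2) :=
      measurable_snd.prodMk (measurable_snd.comp measurable_fst)
    have h5 := hK.comp h3
    exact h5
  have h1 : StronglyMeasurable (fun p : (E n × Ω) × E n => ex p.1.1 p.2 * K p.1.2 p.2) :=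
    (h2.mul h5).stronglyMeasurable
  have h6 : StronglyMeasurable fun y : E n × Ω => ∫ w, ex y.1 w * K y.2 w ∂(sg n) :=
    h1.integral_prod_right'
  simp only [T_def]
  exact h6.measurable

end Pool.Agent.Y295.SP
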