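import Mathlib
import Pool.Agent.TH335.RF.R1
import Pool.Agent.Y295.SP.A
set_option autoImplicit false
set_option linter.unusedSectionVars false

/-! Windows for densities rough in `m` coordinates of the sphere of `ℝ^(k+m)`. -/

namespace Pool.Agent.Y295.SP

open MeasureTheory Set Complex Filter Topology
open scoped ENNReal NNReal RealInnerProductSpace
open Pool.Agent.H789R2.FR (E sg T sg_finite sg_ae)
open Pool.Agent.H438R2.PD (T_meas' P1 P2 P2_meas T_le)
open Pool.Agent.H438R2.BR (Phi J J_inner)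
open Pool.Agent.TH335.RF
open Pool.Agent.W354.LS (tri tri_nonneg tri_le_one)
open Pool.Agent.Y295.NS (fj fj_nonneg fj_integrable fj_lint fj_tri fj_cont jensen tri_cont ramp ramp_sum
  ramp_cont ramp_mem ind_lim)
open Pool.Agent.TH277.HT (ch ch_norm ch_cont ch_add)

variable {k m : ℕ}

/-- decay in the direction of the first block -/
theorem decay (k m : ℕ) (hk : 2 ≤ k) (hm : 1 ≤ m) : ∃ C : ℝ, 0 < C ∧ ∀ (F : E m → ℂ), Measurable F →
    (∀ y, ‖F y‖ ≤ 1) → ∀ (x : E k) (y : E m), 0 < ‖x‖ →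
    ‖T (fun z : E (k + m) => F (P2 k m z)) (J x y)‖ ≤ C * ‖x‖ ^ (-(1 / 2) : ℝ) := by
  obtain ⟨c, C1, hC1, h1⟩ := phi_asym k hk
  obtain ⟨C2, hC2, h2⟩ := int1 (m := m) hm
  have hk' : (2 : ℝ) ≤ k := by exact_mod_cast hk
  set σ : ℝ := (sg (k - 1)).real univ with hσ
  have hσ0 : 0 < σ := Pool.Agent.H438R2.BR.T7.sg_pos (by omega)
  set D : ℝ := 2 * ‖c‖ + C1 with hD
  have hD0 : 0 < D := by positivity
  have hPhi : ∀ t : ℝ, 0 < t → ‖Phi k t‖ ≤ D * t ^ (-((k : ℝ) - 1) / 2) := by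
    intro t ht
    have h3 := h1 t ht
    have h4 : 0 < t ^ (-((k : ℝ) - 1) / 2) := Real.rpow_pos_of_pos ht _
    have h5 := norm_mt c t
    have h6 : ‖(((t ^ (-((k : ℝ) - 1) / 2) : ℝ) : ℂ)) * mt c t‖ ≤ t ^ (-((k : ℝ) - 1) / 2) * (2 * ‖c‖) := by
      rw [norm_mul, Complex.norm_real, Real.norm_of_nonneg h4.le]
      gcongr
    have h7 : t ^ (-((k : ℝ) - 1) / 2) / (1 + t) ≤ t ^ (-((k : ℝ) - 1) / 2) :=
      div_le_self h4.le (by linarith)
    calc ‖Phi k t‖ = ‖(Phi k t - ((t ^ (-((k : ℝ) - 1) / 2) : ℝ) : ℂ) * mt c t) +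
          ((t ^ (-((k : ℝ) - 1) / 2) : ℝ) : ℂ) * mt c t‖ := by rw [sub_add_cancel]
      _ ≤ C1 * (t ^ (-((k : ℝ) - 1) / 2) / (1 + t)) + t ^ (-((k : ℝ) - 1) / 2) * (2 * ‖c‖) :=
          (norm_add_le _ _).trans (add_le_add h3 h6)
      _ ≤ C1 * t ^ (-((k : ℝ) - 1) / 2) + t ^ (-((k : ℝ) - 1) / 2) * (2 * ‖c‖) := by gcongr
      _ = _ := by rw [hD]; ring
  set S : ℝ := (sg (k + m)).real univ with hS
  have hS0 : 0 < S := Pool.Agent.H438R2.BR.T7.sg_pos (by omega)
  refine ⟨σ * D * C2 + S, by positivity, ?_⟩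
  intro F hFm hF x y hx
  have hrx : 0 < ‖x‖ ^ (-(1 / 2) : ℝ) := Real.rpow_pos_of_pos hx _
  rcases le_or_gt 1 ‖x‖ with hr | hr
  · rw [rep k hk hm F hFm hF x y]
    set r : ℝ := ‖x‖ with hrdef
    have hpt : ∀ y' ∈ Metric.ball (0 : E m) 1, ‖AA k F r y'‖ₑ ≤
        ENNReal.ofReal (σ * D * r ^ (-(1 / 2) : ℝ)) *
          ENNReal.ofReal ((1 - ‖y'‖ ^ 2) ^ (-(1 / 2) : ℝ)) := by
      intro y' hy'
      have hw := wt_pos hy'
      have hw1 := wt_le_one y'
      have hrw : 0 < r * wt y' := by positivity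
      have hb : 0 < 1 - ‖y'‖ ^ 2 := by
        have h3 : ‖y'‖ < 1 := by simpa using hy'
        nlinarith [norm_nonneg y']
      rw [← ofReal_norm, ← ENNReal.ofReal_mul (by positivity)]
      apply ENNReal.ofReal_le_ofReal
      have h3 := hPhi _ hrw
      have h4 : ‖AA k F r y'‖ ≤ σ * wt y' ^ (k - 2) * (D * (r * wt y') ^ (-((k : ℝ) - 1) / 2)) * 1 := by
        unfold AA
        rw [norm_mul, norm_mul, norm_mul, Complex.norm_real, Complex.norm_real,
          Real.norm_of_nonneg hσ0.le, Real.norm_of_nonneg (by positivity)]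
        gcongr
        exact hF y'
      have h5 : wt y' ^ (k - 2) * (r * wt y') ^ (-((k : ℝ) - 1) / 2) ≤
          r ^ (-(1 / 2) : ℝ) * (wt y')⁻¹ := by
        rw [Real.mul_rpow (by positivity) hw.le, ← Real.rpow_natCast (wt y') (k - 2)]
        have e2 : wt y' ^ (((k - 2 : ℕ) : ℝ)) * wt y' ^ (-((k : ℝ) - 1) / 2) =
            wt y' ^ (((k : ℝ) - 3) / 2) := by
          rw [← Real.rpow_add hw]
          congr 1
          push_cast [Nat.cast_sub hk]
          ring
        have e3 : wt y' ^ (((k : ℝ) - 3) / 2) ≤ (wt y')⁻¹ := by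
          rw [← Real.rpow_neg_one]
          exact Real.rpow_le_rpow_of_exponent_ge hw hw1 (by linarith)
        have e4 : r ^ (-((k : ℝ) - 1) / 2) ≤ r ^ (-(1 / 2) : ℝ) :=
          Real.rpow_le_rpow_of_exponent_le hr (by linarith)
        calc wt y' ^ (((k - 2 : ℕ) : ℝ)) * (r ^ (-((k : ℝ) - 1) / 2) * wt y' ^ (-((k : ℝ) - 1) / 2))
            = r ^ (-((k : ℝ) - 1) / 2) *
              (wt y' ^ (((k - 2 : ℕ) : ℝ)) * wt y' ^ (-((k : ℝ) - 1) / 2)) := by ring
          _ = r ^ (-((k : ℝ) - 1) / 2) * wt y' ^ (((k : ℝ) - 3) / 2) := by rw [e2]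
          _ ≤ _ := by gcongr
      have h6 : (wt y')⁻¹ = (1 - ‖y'‖ ^ 2) ^ (-(1 / 2) : ℝ) := by
        unfold wt
        rw [Real.sqrt_eq_rpow, ← Real.rpow_neg hb.le]
      calc ‖AA k F r y'‖ ≤ σ * D * (wt y' ^ (k - 2) * (r * wt y') ^ (-((k : ℝ) - 1) / 2)) := by
            refine h4.trans (le_of_eq ?_)
            ring
        _ ≤ σ * D * (r ^ (-(1 / 2) : ℝ) * (wt y')⁻¹) := by gcongr
        _ = _ := by rw [h6]; ring
    have h7 : ‖FB (AA k F r) y‖ₑ ≤ ENNReal.ofReal (σ * D * r ^ (-(1 / 2) : ℝ) * C2) := by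
      calc ‖FB (AA k F r) y‖ₑ ≤ ∫⁻ z in Metric.ball (0 : E m) 1, ‖AA k F r z‖ₑ := by
            unfold FB
            refine (enorm_integral_le_lintegral_enorm _).trans (le_of_eq ?_)
            refine lintegral_congr fun z => ?_
            rw [enorm_mul, enorm_e, mul_one]
        _ ≤ ∫⁻ z in Metric.ball (0 : E m) 1, ENNReal.ofReal (σ * D * r ^ (-(1 / 2) : ℝ)) *
              ENNReal.ofReal ((1 - ‖z‖ ^ 2) ^ (-(1 / 2) : ℝ)) :=
            setLIntegral_mono' measurableSet_ball hpt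
        _ ≤ ENNReal.ofReal (σ * D * r ^ (-(1 / 2) : ℝ)) * ENNReal.ofReal C2 := by
            rw [lintegral_const_mul' _ _ ENNReal.ofReal_ne_top]
            gcongr
        _ = _ := by rw [← ENNReal.ofReal_mul (by positivity)]
    rw [← ofReal_norm, ENNReal.ofReal_le_ofReal_iff (by positivity)] at h7
    refine h7.trans ?_
    nlinarith [mul_pos hS0 hrx]
  · have h3 := T_le (fun z : E (k + m) => F (P2 k m z)) 1 (fun w => hF _) (J x y)
    rw [one_mul] at h3
    refine h3.trans ?_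
    have h4 : 1 ≤ ‖x‖ ^ (-(1 / 2) : ℝ) :=
      Real.one_le_rpow_of_pos_of_le_one_of_nonpos hx hr.le (by norm_num)
    have h5 : 0 < σ * D * C2 := by positivity
    nlinarith

/-- multiplier type bound -/
def Mul (k m : ℕ) (q : ℝ) (G : E (k + m) → ℂ) (B : ℝ≥0∞) : Prop :=
  ∀ H : E m → ℂ, Measurable H → (∀ y, ‖H y‖ ≤ 1) → LL q (fun x => H (P2 k m x) * G x) ≤ B

/-- the pieces of a window -/
noncomputable def pc (η : E (k + m)) (α : E m → ℝ) (K : E (k + m) → ℂ) (w : ℝ) (x : E (k + m)) : ℂ :=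
  ex (-((2 * Real.pi * w) • η)) x * (ch (w * α (P2 k m x)) * K x)

lemma pc_eq (η : E (k + m)) (α : E m → ℝ) (K : E (k + m) → ℂ) (w : ℝ) (x : E (k + m)) :
    pc η α K w x = ch (w * (⟪η, x⟫ + α (P2 k m x))) * K x := by
  unfold pc
  rw [mul_add, ch_add, ← mul_assoc]
  congr 2
  unfold ex ch
  rw [inner_neg_left, real_inner_smul_left]
  congr 1
  push_cast
  ring

lemma pc_meas (η : E (k + m)) {α : E m → ℝ} (hα : Measurable α) {K : E (k + m) → ℂ} (hK : Measurable K) :
    Measurable fun y : E (k + m) × ℝ => pc η α K y.2 y.1 := by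
  simp only [pc_eq]
  have h1 : Measurable fun y : E (k + m) × ℝ => (⟪η, y.1⟫ : ℝ) :=
    (by fun_prop : Continuous fun y : E (k + m) × ℝ => (⟪η, y.1⟫ : ℝ)).measurable
  have h2 : Measurable fun y : E (k + m) × ℝ => α (P2 k m y.1) :=
    hα.comp ((P2_meas k m).comp measurable_fst)
  exact (ch_cont.measurable.comp (measurable_snd.mul (h1.add h2))).mul (hK.comp measurable_fst)

/-- the window as a superposition -/
lemma T_win (η : E (k + m)) {α : E m → ℝ} (hα : Measurable α) {K : E (k + m) → ℂ} (hK : Measurable K)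
    (hK1 : ∀ x, ‖K x‖ ≤ 1) (z : E (k + m)) :
    T (fun x => (tri (⟪η, x⟫ + α (P2 k m x)) : ℂ) * K x) z =
      ∫ w, (fj w : ℂ) * T (pc η α K w) z := by
  simp only [T_def]
  have hI : Integrable (Function.uncurry fun (x : E (k + m)) (w : ℝ) =>
      ex z x * ((fj w : ℂ) * pc η α K w x)) ((sg (k + m)).prod volume) := by
    have h1 : Integrable (fun _ : E (k + m) => (1 : ℝ)) (sg (k + m)) := integrable_const _
    refine Integrable.mono' (h1.mul_prod fj_integrable) ?_ (ae_of_all _ fun y => ?_)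
    · apply Measurable.aestronglyMeasurable
      have h2 : Measurable fun y : E (k + m) × ℝ => (fj y.2 : ℂ) :=
        Complex.measurable_ofReal.comp (fj_cont.measurable.comp measurable_snd)
      exact ((ex_cont' z).measurable.comp measurable_fst).mul (h2.mul (pc_meas η hα hK))
    · rw [Function.uncurry, norm_mul, norm_mul, ex_norm, one_mul, Complex.norm_real, Real.norm_eq_abs,
        abs_of_nonneg (fj_nonneg _), one_mul, pc_eq, norm_mul, ch_norm, one_mul]
      exact mul_le_of_le_one_right (fj_nonneg _) (hK1 _)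
  have hs := integral_integral_swap hI
  have e1 : ∀ x : E (k + m), ex z x * ((tri (⟪η, x⟫ + α (P2 k m x)) : ℂ) * K x) =
      ∫ w : ℝ, ex z x * ((fj w : ℂ) * pc η α K w x) := by
    intro x
    simp only [pc_eq]
    rw [integral_const_mul]
    congr 1
    rw [← fj_tri, ← integral_mul_const]
    congr 1
    ext w
    ring
  simp only [e1]
  rw [hs]
  apply integral_congr_ae
  refine ae_of_all _ fun w => ?_
  simp only
  rw [← integral_const_mul]
  apply integral_congr_ae
  refine ae_of_all _ fun x => ?_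
  simp only
  ring

/-- windows -/
lemma Mul_win (q : ℝ) (hq : 1 ≤ q) (η : E (k + m)) {α : E m → ℝ} (hα : Measurable α)
    {G : E (k + m) → ℂ} (hG : Measurable G) (hG1 : ∀ x, ‖G x‖ ≤ 1) (B : ℝ≥0∞) (h : Mul k m q G B) :
    Mul k m q (fun x => (tri (⟪η, x⟫ + α (P2 k m x)) : ℂ) * G x) B := by
  intro H hH hH1
  have hK : Measurable fun x : E (k + m) => H (P2 k m x) * G x := (hH.comp (P2_meas k m)).mul hG
  have hK1 : ∀ x, ‖H (P2 k m x) * G x‖ ≤ 1 := by
    intro x
    rw [norm_mul]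
    exact mul_le_one₀ (hH1 _) (norm_nonneg _) (hG1 x)
  have e0 : (fun x => H (P2 k m x) * ((tri (⟪η, x⟫ + α (P2 k m x)) : ℂ) * G x)) =
      fun x => (tri (⟪η, x⟫ + α (P2 k m x)) : ℂ) * (H (P2 k m x) * G x) := by
    ext x
    ring
  rw [e0]
  refine LL_mix volume q hq _ (pc η α fun x => H (P2 k m x) * G x) (fun w => ENNReal.ofReal (fj w))
    fj_cont.measurable.ennreal_ofReal fj_lint.le (T_joint _ (pc_meas η hα hK)) ?_ B ?_
  · intro z
    rw [T_win η hα hK hK1 z]
    refine (enorm_integral_le_lintegral_enorm _).trans (le_of_eq ?_)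
    apply lintegral_congr
    intro w
    rw [enorm_mul]
    congr 1
    rw [← ofReal_norm, Complex.norm_real, Real.norm_eq_abs, abs_of_nonneg (fj_nonneg _)]
  · intro w
    have e1 : pc η α (fun x => H (P2 k m x) * G x) w = fun x => ex (-((2 * Real.pi * w) • η)) x *
        ((fun y => ch (w * α y) * H y) (P2 k m x) * G x) := by
      ext x
      unfold pc
      simp only
      ring
    rw [e1, LL_mod]
    have hm1 : Measurable fun y => ch (w * α y) := ch_cont.measurable.comp (hα.const_mul w)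
    refine h (fun y => ch (w * α y) * H y) (hm1.mul hH) ?_
    · intro y
      rw [norm_mul, ch_norm, one_mul]
      exact hH1 y

lemma fj_sing : ∫⁻ w : ℝ, ENNReal.ofReal (fj w * |w| ^ (-(1 / 2) : ℝ)) ≤ ENNReal.ofReal 5 := by
  have h1 : ∀ w : ℝ, ENNReal.ofReal (fj w * |w| ^ (-(1 / 2) : ℝ)) ≤
      (Icc (-1 : ℝ) 1).indicator (fun w => ENNReal.ofReal (|w| ^ (-(1 / 2) : ℝ))) w +
        ENNReal.ofReal (fj w) := by
    intro w
    by_cases hw : w ∈ Icc (-1 : ℝ) 1
    · rw [indicator_of_mem hw]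
      refine le_trans (ENNReal.ofReal_le_ofReal ?_) le_self_add
      have h2 : fj w ≤ 1 := by
        unfold Pool.Agent.Y295.NS.fj
        have h3 := Real.abs_sinc_le_one (Real.pi * w)
        rw [← sq_abs]
        exact pow_le_one₀ (abs_nonneg _) h3
      exact mul_le_of_le_one_left (Real.rpow_nonneg (abs_nonneg _) _) h2
    · rw [indicator_of_notMem hw, zero_add]
      apply ENNReal.ofReal_le_ofReal
      have h3 : 1 ≤ |w| := by
        by_contra hc
        exact hw (abs_le.1 (not_le.1 hc).le)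
      exact mul_le_of_le_one_right (fj_nonneg _)
        (Real.rpow_le_one_of_one_le_of_nonpos h3 (by norm_num))
  have h2 : ∫⁻ w in Icc (-1 : ℝ) 1, ENNReal.ofReal (|w| ^ (-(1 / 2) : ℝ)) ≤ ENNReal.ofReal 4 := by
    have hsub : Icc (-1 : ℝ) 1 ⊆ Icc (-1 : ℝ) 0 ∪ Icc 0 1 := by
      intro w hw
      rcases le_total w 0 with h | h
      · exact Or.inl ⟨hw.1, h⟩
      · exact Or.inr ⟨h, hw.2⟩
    have hpos : ∫⁻ w in Icc (0 : ℝ) 1, ENNReal.ofReal (|w| ^ (-(1 / 2) : ℝ)) ≤ ENNReal.ofReal 2 := by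
      have hI : IntervalIntegrable (fun w : ℝ => w ^ (-(1 / 2) : ℝ)) volume 0 1 :=
        intervalIntegral.intervalIntegrable_rpow' (by norm_num)
      have e1 : ∫⁻ w in Icc (0 : ℝ) 1, ENNReal.ofReal (|w| ^ (-(1 / 2) : ℝ)) =
          ∫⁻ w in Ioc (0 : ℝ) 1, ENNReal.ofReal (w ^ (-(1 / 2) : ℝ)) := by
        rw [← restrict_Ioc_eq_restrict_Icc]
        apply setLIntegral_congr_fun measurableSet_Ioc
        intro w hw
        simp only
        rw [abs_of_pos hw.1]
      rw [e1, ← ofReal_integral_eq_lintegral_ofReal]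
      · apply ENNReal.ofReal_le_ofReal
        rw [← intervalIntegral.integral_of_le zero_le_one, integral_rpow (Or.inl (by norm_num))]
        norm_num
      · rw [intervalIntegrable_iff_integrableOn_Ioc_of_le zero_le_one] at hI
        exact hI
      · refine (ae_restrict_iff' measurableSet_Ioc).2 (ae_of_all _ fun w hw => ?_)
        exact Real.rpow_nonneg hw.1.le _
    have hneg : ∫⁻ w in Icc (-1 : ℝ) 0, ENNReal.ofReal (|w| ^ (-(1 / 2) : ℝ)) ≤ ENNReal.ofReal 2 := by
      have h3 := (Measure.measurePreserving_neg (volume : Measure ℝ)).setLIntegral_comp_preimage_emb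
        (MeasurableEquiv.neg ℝ).measurableEmbedding
        (fun w : ℝ => ENNReal.ofReal (|w| ^ (-(1 / 2) : ℝ))) (Icc (0 : ℝ) 1)
      have e2 : (Neg.neg ⁻¹' Icc (0 : ℝ) 1) = Icc (-1 : ℝ) 0 := by
        ext w
        simp only [mem_preimage, mem_Icc]
        constructor
        · rintro ⟨h4, h5⟩
          constructor <;> linarith
        · rintro ⟨h4, h5⟩
          constructor <;> linarith
      rw [e2] at h3
      simp only [abs_neg] at h3
      rw [h3]
      exact hpos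
    calc _ ≤ ∫⁻ w in Icc (-1 : ℝ) 0 ∪ Icc 0 1, ENNReal.ofReal (|w| ^ (-(1 / 2) : ℝ)) :=
          lintegral_mono_set hsub
      _ ≤ ENNReal.ofReal 2 + ENNReal.ofReal 2 :=
          (lintegral_union_le _ _ _).trans (add_le_add hneg hpos)
      _ = ENNReal.ofReal 4 := by
          rw [← ENNReal.ofReal_add (by norm_num) (by norm_num)]
          norm_num
  refine (lintegral_mono h1).trans ?_
  rw [lintegral_add_right _ fj_cont.measurable.ennreal_ofReal, fj_lint,
    lintegral_indicator measurableSet_Icc]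
  refine (add_le_add h2 le_rfl).trans (le_of_eq ?_)
  rw [← ENNReal.ofReal_one, ← ENNReal.ofReal_add (by norm_num) (by norm_num)]
  norm_num

lemma J_zero (x : E k) (c : ℝ) : c • (J x (0 : E m)) = J (c • x) (0 : E m) := by
  ext i
  refine Fin.addCases (fun j => ?_) (fun j => ?_) i
  · simp [J, Fin.append_left]
  · simp [J, Fin.append_right]

/-- the measure of a narrow window -/
theorem narrow (k m : ℕ) (hk : 2 ≤ k) (hm : 1 ≤ m) : ∃ C : ℝ, 0 < C ∧ ∀ (η₁ : E k) (α : E m → ℝ) (c : ℝ),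
    ‖η₁‖ = 1 → Measurable α → 0 < c →
    ∫⁻ x, ENNReal.ofReal (tri (⟪c • (J η₁ (0 : E m)), x⟫ + α (P2 k m x))) ∂(sg (k + m)) ≤
      ENNReal.ofReal (C * c ^ (-(1 / 2) : ℝ)) := by
  obtain ⟨C, hC, hdec⟩ := decay k m hk hm
  refine ⟨C * 5, by positivity, ?_⟩
  intro η₁ α c hη hα hc
  set η : E (k + m) := c • (J η₁ (0 : E m)) with hηd
  have hcont : Measurable fun x : E (k + m) => tri (⟪η, x⟫ + α (P2 k m x)) := by
    apply tri_cont.measurable.comp
    have h1 : Measurable fun x : E (k + m) => (⟪η, x⟫ : ℝ) :=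
      (by fun_prop : Continuous fun x : E (k + m) => (⟪η, x⟫ : ℝ)).measurable
    exact h1.add (hα.comp (P2_meas k m))
  have hint : Integrable (fun x : E (k + m) => tri (⟪η, x⟫ + α (P2 k m x))) (sg (k + m)) := by
    refine (integrable_const (1 : ℝ)).mono' hcont.aestronglyMeasurable (ae_of_all _ fun x => ?_)
    rw [Real.norm_of_nonneg (tri_nonneg _)]
    exact tri_le_one _
  rw [← ofReal_integral_eq_lintegral_ofReal hint (ae_of_all _ fun x => tri_nonneg _)]
  apply ENNReal.ofReal_le_ofReal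
  have h0 : 0 ≤ ∫ x, tri (⟪η, x⟫ + α (P2 k m x)) ∂(sg (k + m)) := integral_nonneg fun x => tri_nonneg _
  have h1 : ∫ x, tri (⟪η, x⟫ + α (P2 k m x)) ∂(sg (k + m)) =
      ‖T (fun x => (tri (⟪η, x⟫ + α (P2 k m x)) : ℂ) * (1 : ℂ)) 0‖ := by
    have e1 : T (fun x => (tri (⟪η, x⟫ + α (P2 k m x)) : ℂ) * (1 : ℂ)) (0 : E (k + m)) =
        ((∫ x, tri (⟪η, x⟫ + α (P2 k m x)) ∂(sg (k + m)) : ℝ) : ℂ) := by
      rw [T_def, ← integral_complex_ofReal]
      apply integral_congr_ae
      refine ae_of_all _ fun x => ?_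
      simp only
      unfold ex
      simp
    rw [e1, Complex.norm_real, Real.norm_of_nonneg h0]
  rw [h1, T_win η hα (K := fun _ => (1 : ℂ)) measurable_const (fun x => by simp) 0]
  have h2 : ∀ w : ℝ, w ≠ 0 → ‖(fj w : ℂ) * T (pc η α (fun _ => (1 : ℂ)) w) 0‖ ≤
      C * c ^ (-(1 / 2) : ℝ) * (fj w * |w| ^ (-(1 / 2) : ℝ)) := by
    intro w hw
    have e1 : pc η α (fun _ => (1 : ℂ)) w = fun x => ex (-((2 * Real.pi * w) • η)) x *
        ((fun z : E (k + m) => (fun y => ch (w * α y)) (P2 k m z)) x) := by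
      ext x
      unfold pc
      simp only [mul_one]
    have e2 : -((2 * Real.pi * w) • η) = J ((-(2 * Real.pi * w) * c) • η₁) (0 : E m) := by
      rw [hηd, ← neg_smul, smul_smul, J_zero]
    rw [norm_mul, Complex.norm_real, Real.norm_of_nonneg (fj_nonneg _), e1, T_mod, zero_add, e2]
    have h3 := hdec (fun y => ch (w * α y)) (ch_cont.measurable.comp (hα.const_mul w))
      (fun y => (ch_norm _).le) ((-(2 * Real.pi * w) * c) • η₁) 0 (by
        rw [norm_smul, hη, mul_one]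
        have := Real.pi_pos
        rw [norm_pos_iff]
        exact mul_ne_zero (neg_ne_zero.2 (mul_ne_zero (by positivity) hw)) hc.ne')
    have h4 : ‖(-(2 * Real.pi * w) * c) • η₁‖ = 2 * Real.pi * (|w| * c) := by
      rw [norm_smul, hη, mul_one, Real.norm_eq_abs, abs_mul, abs_neg, abs_mul, abs_of_pos hc,
        abs_of_pos (by positivity : (0 : ℝ) < 2 * Real.pi)]
      ring
    have h5 : (2 * Real.pi * (|w| * c)) ^ (-(1 / 2) : ℝ) ≤ c ^ (-(1 / 2) : ℝ) * |w| ^ (-(1 / 2) : ℝ) := by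
      have hwp : 0 < |w| := abs_pos.2 hw
      have h6 : |w| * c ≤ 2 * Real.pi * (|w| * c) := by
        have h7 : 1 ≤ 2 * Real.pi := by linarith [Real.pi_gt_three]
        have h8 : 0 < |w| * c := by positivity
        nlinarith
      calc (2 * Real.pi * (|w| * c)) ^ (-(1 / 2) : ℝ) ≤ (|w| * c) ^ (-(1 / 2) : ℝ) :=
            Real.rpow_le_rpow_of_nonpos (by positivity) h6 (by norm_num)
        _ = _ := by
            rw [Real.mul_rpow hwp.le hc.le]
            ring
    calc fj w * ‖T (fun z : E (k + m) => (fun y => ch (w * α y)) (P2 k m z))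
          (J ((-(2 * Real.pi * w) * c) • η₁) 0)‖
        ≤ fj w * (C * (c ^ (-(1 / 2) : ℝ) * |w| ^ (-(1 / 2) : ℝ))) := by
          apply mul_le_mul_of_nonneg_left _ (fj_nonneg w)
          refine h3.trans ?_
          rw [h4]
          gcongr
      _ = _ := by ring
  have h3 : ‖∫ w, (fj w : ℂ) * T (pc η α (fun _ => (1 : ℂ)) w) 0‖ₑ ≤
      ENNReal.ofReal (C * 5 * c ^ (-(1 / 2) : ℝ)) := by
    refine (enorm_integral_le_lintegral_enorm _).trans ?_
    calc ∫⁻ w, ‖(fj w : ℂ) * T (pc η α (fun _ => (1 : ℂ)) w) 0‖ₑ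
        ≤ ∫⁻ w, ENNReal.ofReal (C * c ^ (-(1 / 2) : ℝ)) *
            ENNReal.ofReal (fj w * |w| ^ (-(1 / 2) : ℝ)) := by
          apply lintegral_mono_ae
          have h4 : ∀ᵐ w : ℝ, w ≠ 0 := by
            rw [ae_iff]
            simp only [not_not]
            exact measure_singleton (0 : ℝ)
          filter_upwards [h4] with w hw
          rw [← ENNReal.ofReal_mul (by positivity), ← ofReal_norm]
          exact ENNReal.ofReal_le_ofReal (h2 w hw)
      _ ≤ ENNReal.ofReal (C * c ^ (-(1 / 2) : ℝ)) * ENNReal.ofReal 5 := by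
          rw [lintegral_const_mul' _ _ ENNReal.ofReal_ne_top]
          gcongr
          exact fj_sing
      _ = _ := by
          rw [← ENNReal.ofReal_mul (by positivity)]
          congr 1
          ring
  rw [← ofReal_norm, ENNReal.ofReal_le_ofReal_iff (by positivity)] at h3
  exact h3

end Pool.Agent.Y295.SP
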