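import Mathlib
import Pool.Agent.Y295.SP.B
set_option autoImplicit false
set_option linter.unusedSectionVars false

/-! Sharp cutoffs, monotone factors, products. -/

namespace Pool.Agent.Y295.SP

open MeasureTheory Set Complex Filter Topology
open scoped ENNReal NNReal RealInnerProductSpace
open Pool.Agent.H789R2.FR (E sg T sg_finite sg_ae)
open Pool.Agent.H438R2.PD (T_meas' P1 P2 P2_meas T_le)
open Pool.Agent.H438R2.BR (Phi J J_inner)
open Pool.Agent.W354.LS (tri tri_nonneg tri_le_one tri_zero)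
open Pool.Agent.Y295.NS (tri_cont ramp ramp_sum ramp_cont ramp_mem ind_lim)

variable {k m : ℕ}

attribute [local irreducible] LL

lemma in_meas (η : E (k + m)) : Measurable fun x : E (k + m) => (⟪η, x⟫ : ℝ) :=
  (by fun_prop : Continuous fun x : E (k + m) => (⟪η, x⟫ : ℝ)).measurable

lemma norm_J (η₁ : E k) (h : ‖η₁‖ = 1) : ‖(J η₁ (0 : E m))‖ = 1 := by
  have h1 : ‖(J η₁ (0 : E m))‖ ^ 2 = 1 := by
    rw [← real_inner_self_eq_norm_sq, J_inner, real_inner_self_eq_norm_sq, h]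
    simp
  nlinarith [norm_nonneg (J η₁ (0 : E m)), sq_nonneg (‖(J η₁ (0 : E m))‖ - 1)]

lemma in_le (η₁ : E k) (h : ‖η₁‖ = 1) {x : E (k + m)} (hx : ‖x‖ = 1) :
    |(⟪J η₁ (0 : E m), x⟫ : ℝ)| ≤ 1 := by
  have h1 := abs_real_inner_le_norm (J η₁ (0 : E m)) x
  rwa [norm_J η₁ h, hx, mul_one] at h1

lemma cc_est (j : ℕ) : (2 ^ (j + 1) / 4 : ℝ) ^ (-(1 / 2) : ℝ) ≤ 2 * ((1 / 2 : ℝ) ^ (1 / 2 : ℝ)) ^ j := by
  have ha : (1 / 2 : ℝ) ^ (1 / 2 : ℝ) = 2 ^ (-(1 / 2) : ℝ) := by
    rw [one_div, Real.inv_rpow (by norm_num), Real.rpow_neg (by norm_num)]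
  have e1 : (2 ^ (j + 1) / 4 : ℝ) = 2 ^ ((j : ℝ) - 1) := by
    rw [Real.rpow_sub (by norm_num), Real.rpow_natCast, Real.rpow_one, pow_succ]
    ring
  rw [ha, e1, ← Real.rpow_natCast ((2 : ℝ) ^ (-(1 / 2) : ℝ)) j, ← Real.rpow_mul (by norm_num),
    ← Real.rpow_mul (by norm_num)]
  have e2 : ((j : ℝ) - 1) * -(1 / 2) = 1 / 2 + -(1 / 2) * j := by ring
  rw [e2, Real.rpow_add (by norm_num)]
  have h3 : (2 : ℝ) ^ (1 / 2 : ℝ) ≤ 2 := by
    calc (2 : ℝ) ^ (1 / 2 : ℝ) ≤ 2 ^ (1 : ℝ) :=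
          Real.rpow_le_rpow_of_exponent_le (by norm_num) (by norm_num)
      _ = 2 := Real.rpow_one _
  gcongr

/-- sharp cutoffs -/
theorem thr (k m : ℕ) (hk : 2 ≤ k) (hm : 1 ≤ m) (q q' : ℝ) (hq' : 1 ≤ q') (hqq : q' < q) :
    ∃ D : ℝ, 0 ≤ D ∧ ∀ (η₁ : E k) (R : E m → ℝ) (G : E (k + m) → ℂ) (B B' : ℝ),
    ‖η₁‖ = 1 → Measurable R → Measurable G → (∀ x, ‖G x‖ ≤ 1) → 0 ≤ B → 0 ≤ B' →
    Mul k m q G (ENNReal.ofReal B) → Mul k m q' G (ENNReal.ofReal B') →
    Mul k m q (fun x => ((if R (P2 k m x) ≤ (⟪J η₁ (0 : E m), x⟫ : ℝ) then (1 : ℝ) else 0 : ℝ) : ℂ) * G x)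
      (ENNReal.ofReal (2 * B + D * B' ^ (q' / q))) := by
  obtain ⟨C, hC, hnar⟩ := narrow k m hk hm
  have hq0 : 0 < q := by linarith
  set θ : ℝ := 1 - q' / q with hθ
  have hθ0 : 0 < θ := by
    rw [hθ, sub_pos, div_lt_one hq0]
    exact hqq
  set r0 : ℝ := (1 / 2 : ℝ) ^ (1 / 2 : ℝ) with hr0
  have hr00 : 0 < r0 := by positivity
  have hr01 : r0 < 1 := Real.rpow_lt_one (by norm_num) (by norm_num) (by norm_num)
  set ρ : ℝ := r0 ^ θ with hρ
  have hρ0 : 0 < ρ := by positivity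
  have hρ1 : ρ < 1 := Real.rpow_lt_one hr00.le hr01 hθ0
  set K : ℝ := (C * 2) ^ θ with hK
  have hK0 : 0 < K := by positivity
  refine ⟨K * (1 - ρ)⁻¹, by
    have : 0 < 1 - ρ := by linarith
    positivity, ?_⟩
  intro η₁ R G B B' hη hR hG hG1 hB hB' hMB hMB' H hH hH1
  set η : E (k + m) := J η₁ (0 : E m) with hηd
  set R0 : E m → ℝ := fun y => max (-2) (min 2 (R y)) with hR0
  have hR0m : Measurable R0 := measurable_const.max (measurable_const.min hR)
  set α : E m → ℝ := fun y => -(R0 y / 4) with hα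
  have hαm : Measurable α := (hR0m.div_const _).neg
  set v : E (k + m) → ℝ := fun x => ⟪(1 / 4 : ℝ) • η, x⟫ + α (P2 k m x) with hv
  have hvm : Measurable v := (in_meas _).add (hαm.comp (P2_meas k m))
  have hve : ∀ x, v x = ((⟪η, x⟫ : ℝ) - R0 (P2 k m x)) / 4 := by
    intro x
    rw [hv, hα]
    simp only
    rw [real_inner_smul_left]
    ring
  have hHm : Measurable fun x : E (k + m) => H (P2 k m x) := hH.comp (P2_meas k m)
  -- replace the indicator
  have hae : (fun x => H (P2 k m x) *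
      (((if R (P2 k m x) ≤ (⟪η, x⟫ : ℝ) then (1 : ℝ) else 0 : ℝ) : ℂ) * G x)) =ᵐ[sg (k + m)]
      fun x => H (P2 k m x) * (((if 0 ≤ v x then (1 : ℝ) else 0 : ℝ) : ℂ) * G x) := by
    filter_upwards [sg_ae (k + m)] with x hx
    have h1 := abs_le.1 (in_le (m := m) η₁ hη hx)
    have h2 : R (P2 k m x) ≤ (⟪η, x⟫ : ℝ) ↔ 0 ≤ v x := by
      rw [hve x]
      have h3 : R0 (P2 k m x) = max (-2) (min 2 (R (P2 k m x))) := rfl
      rw [h3]
      constructor
      · intro h4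
        apply div_nonneg _ (by norm_num)
        rw [sub_nonneg, max_le_iff]
        exact ⟨by linarith [h1.1], (min_le_right _ _).trans h4⟩
      · intro h4
        have h5 : 0 ≤ (⟪η, x⟫ : ℝ) - max (-2) (min 2 (R (P2 k m x))) := by
          by_contra hc
          have : ((⟪η, x⟫ : ℝ) - max (-2) (min 2 (R (P2 k m x)))) / 4 < 0 :=
            div_neg_of_neg_of_pos (not_le.1 hc) (by norm_num)
          linarith
        rw [sub_nonneg, max_le_iff] at h5
        rcases min_le_iff.1 h5.2 with h6 | h6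
        · linarith [h1.2]
        · exact h6
    simp only [h2]
  rw [LL_congr q hae]
  refine LL_dom q (by linarith) _ (fun _ => (1 : ℂ)) (fun n x => H (P2 k m x) * ((ramp n (v x) : ℂ) * G x))
    (integrable_const _) ?_ ?_ ?_ ?_ ?_ _ ?_
  · apply hHm.mul
    apply Measurable.mul _ hG
    apply Complex.measurable_ofReal.comp
    exact Measurable.ite (measurableSet_le measurable_const hvm) measurable_const measurable_const
  · intro n
    exact hHm.mul ((Complex.measurable_ofReal.comp ((ramp_cont n).measurable.comp hvm)).mul hG)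
  · intro x
    rw [norm_mul, norm_mul, norm_one, Complex.norm_real, Real.norm_eq_abs]
    refine mul_le_one₀ (hH1 _) (by positivity) (mul_le_one₀ ?_ (norm_nonneg _) (hG1 x))
    split_ifs <;> simp
  · intro n x
    rw [norm_mul, norm_mul, norm_one, Complex.norm_real, Real.norm_eq_abs,
      abs_of_nonneg (ramp_mem n _).1]
    exact mul_le_one₀ (hH1 _) (mul_nonneg (ramp_mem n _).1 (norm_nonneg _))
      (mul_le_one₀ (ramp_mem n _).2 (norm_nonneg _) (hG1 x))
  · intro x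
    apply Tendsto.const_mul
    apply Tendsto.mul_const
    exact (Complex.continuous_ofReal.tendsto _).comp (ind_lim (v x))
  intro n
  -- windows
  set cc : ℕ → ℝ := fun j => 2 ^ (j + 1) / 4 with hcc
  have hcc0 : ∀ j, 0 < cc j := fun j => by rw [hcc]; positivity
  set αj : ℕ → E m → ℝ := fun j y => α y * 2 ^ (j + 1) + 1 with hαj
  have hαjm : ∀ j, Measurable (αj j) := fun j => (hαm.mul_const _).add_const _
  have e : LL q (fun x => H (P2 k m x) * ((ramp n (v x) : ℂ) * G x)) =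
      LL q (fun x => (H (P2 k m x) * ((tri (⟪(1 / 4 : ℝ) • η, x⟫ + α (P2 k m x)) : ℂ) * G x) +
        H (P2 k m x) * ((tri (⟪(1 / 4 : ℝ) • η, x⟫ + (fun y => α y + -1) (P2 k m x)) : ℂ) * G x)) +
        ∑ j ∈ Finset.range n, (-(1 / 2) : ℂ) * (H (P2 k m x) *
          ((tri (⟪cc j • η, x⟫ + αj j (P2 k m x)) : ℂ) * G x))) := by
    apply LL_congr
    filter_upwards [sg_ae (k + m)] with x hx
    have h1 := abs_le.1 (in_le (m := m) η₁ hη hx)
    have hv1 : v x ≤ 1 := by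
      rw [hve x, div_le_one (by norm_num)]
      have h2 : -2 ≤ R0 (P2 k m x) := le_max_left _ _
      linarith [h1.2]
    rw [ramp_sum n _ hv1]
    push_cast
    rw [add_mul, add_mul, mul_add, mul_add, Finset.sum_mul, Finset.mul_sum]
    congr 1
    · congr 1
      rw [hv]
      simp only
      rw [add_assoc]
    · apply Finset.sum_congr rfl
      intro j _
      have e2 : v x * 2 ^ (j + 1) + 1 = ⟪cc j • η, x⟫ + αj j (P2 k m x) := by
        rw [hv, hcc, hαj]
        simp only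
        rw [real_inner_smul_left, real_inner_smul_left]
        ring
      rw [e2]
      ring
  rw [e]
  have hα1 : Measurable fun y => α y + -1 := hαm.add_const _
  have b1 := Mul_win q (by linarith) ((1 / 4 : ℝ) • η) hαm hG hG1 _ hMB H hH hH1
  have b2 := Mul_win q (by linarith) ((1 / 4 : ℝ) • η) hα1 hG hG1 _ hMB H hH hH1
  have hwm : ∀ (ζ : E (k + m)) (β : E m → ℝ), Measurable β →
      Measurable fun x => H (P2 k m x) * ((tri (⟪ζ, x⟫ + β (P2 k m x)) : ℂ) * G x) := by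
    intro ζ β hβ
    exact hHm.mul ((Complex.measurable_ofReal.comp (tri_cont.measurable.comp
      ((in_meas ζ).add (hβ.comp (P2_meas k m))))).mul hG)
  have hwb : ∀ (ζ : E (k + m)) (β : E m → ℝ) (x : E (k + m)),
      ‖H (P2 k m x) * ((tri (⟪ζ, x⟫ + β (P2 k m x)) : ℂ) * G x)‖ ≤ tri (⟪ζ, x⟫ + β (P2 k m x)) := by
    intro ζ β x
    rw [norm_mul, norm_mul, Complex.norm_real, Real.norm_eq_abs, abs_of_nonneg (tri_nonneg _)]
    have h1 := hH1 (P2 k m x)
    have h2 := hG1 x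
    have h3 := tri_nonneg (⟪ζ, x⟫ + β (P2 k m x))
    calc ‖H (P2 k m x)‖ * (tri (⟪ζ, x⟫ + β (P2 k m x)) * ‖G x‖)
        ≤ 1 * (tri (⟪ζ, x⟫ + β (P2 k m x)) * 1) := by gcongr
      _ = _ := by ring
  have hwi : ∀ (ζ : E (k + m)) (β : E m → ℝ), Measurable β →
      Integrable (fun x => H (P2 k m x) * ((tri (⟪ζ, x⟫ + β (P2 k m x)) : ℂ) * G x)) (sg (k + m)) := by
    intro ζ β hβ
    refine (integrable_const (1 : ℝ)).mono' (hwm ζ β hβ).aestronglyMeasurable (ae_of_all _ fun x => ?_)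
    exact (hwb ζ β x).trans (tri_le_one _)
  have b3 : ∀ j : ℕ, LL q (fun x => (-(1 / 2) : ℂ) * (H (P2 k m x) *
      ((tri (⟪cc j • η, x⟫ + αj j (P2 k m x)) : ℂ) * G x))) ≤
      ENNReal.ofReal (K * B' ^ (q' / q) * ρ ^ j) := by
    intro j
    rw [LL_smul q (by linarith) _ _ (hwm _ _ (hαjm j))]
    have c1 : ‖(-(1 / 2) : ℂ)‖ₑ ≤ 1 := by
      rw [← ofReal_norm]
      apply ENNReal.ofReal_le_one.2
      rw [norm_neg]
      norm_num
    have c2 := Mul_win q' hq' (cc j • η) (hαjm j) hG hG1 _ hMB' H hH hH1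
    have c3 := LL_up q q' (by linarith) hqq.le _ (hwm (cc j • η) (αj j) (hαjm j))
    have c4 : ∫⁻ x, ‖H (P2 k m x) * ((tri (⟪cc j • η, x⟫ + αj j (P2 k m x)) : ℂ) * G x)‖ₑ ∂(sg (k + m)) ≤
        ENNReal.ofReal (C * 2 * r0 ^ j) := by
      calc _ ≤ ∫⁻ x, ENNReal.ofReal (tri (⟪cc j • η, x⟫ + αj j (P2 k m x))) ∂(sg (k + m)) := by
            apply lintegral_mono
            intro x
            simp only
            rw [← ofReal_norm]
            exact ENNReal.ofReal_le_ofReal (hwb _ _ x)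
        _ ≤ ENNReal.ofReal (C * cc j ^ (-(1 / 2) : ℝ)) := hnar η₁ (αj j) (cc j) hη (hαjm j) (hcc0 j)
        _ ≤ _ := by
            apply ENNReal.ofReal_le_ofReal
            rw [mul_assoc]
            exact mul_le_mul_of_nonneg_left (cc_est j) hC.le
    calc ‖(-(1 / 2) : ℂ)‖ₑ * LL q (fun x => H (P2 k m x) *
          ((tri (⟪cc j • η, x⟫ + αj j (P2 k m x)) : ℂ) * G x))
        ≤ 1 * (ENNReal.ofReal (C * 2 * r0 ^ j) ^ θ * ENNReal.ofReal B' ^ (q' / q)) := by
          gcongr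
          refine c3.trans ?_
          gcongr
      _ = _ := by
          rw [one_mul, ENNReal.ofReal_rpow_of_nonneg (by positivity) hθ0.le,
            ENNReal.ofReal_rpow_of_nonneg hB' (by positivity), ← ENNReal.ofReal_mul (by positivity)]
          congr 1
          rw [Real.mul_rpow (by positivity) (by positivity), hK, hρ, ← Real.rpow_natCast r0 j,
            ← Real.rpow_mul hr00.le, ← Real.rpow_natCast (r0 ^ θ) j, ← Real.rpow_mul hr00.le,
            mul_comm (j : ℝ) θ]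
          ring
  have i0 := hwi ((1 / 4 : ℝ) • η) α hαm
  have i1 := hwi ((1 / 4 : ℝ) • η) _ hα1
  have i2 := fun j => (hwi (cc j • η) _ (hαjm j)).const_mul (-(1 / 2) : ℂ)
  have m0 := hwm ((1 / 4 : ℝ) • η) α hαm
  have m1 := hwm ((1 / 4 : ℝ) • η) _ hα1
  have m2 := fun j => (hwm (cc j • η) _ (hαjm j)).const_mul (-(1 / 2) : ℂ)
  refine (LL_add q (by linarith) _ _ (i0.add i1) (integrable_finsetSum _ fun j _ => i2 j) (m0.add m1)
    (Finset.measurable_sum _ fun j _ => m2 j)).trans ?_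
  refine (add_le_add (LL_add q (by linarith) _ _ i0 i1 m0 m1)
    (LL_sum q (by linarith) _ _ i2 m2)).trans ?_
  refine (add_le_add (add_le_add b1 b2) (Finset.sum_le_sum fun j _ => b3 j)).trans ?_
  have hBp : 0 ≤ B' ^ (q' / q) := by positivity
  rw [← ENNReal.ofReal_add hB hB, ← ENNReal.ofReal_sum_of_nonneg (fun j _ => by positivity),
    ← ENNReal.ofReal_add (by positivity) (Finset.sum_nonneg fun j _ => by positivity)]
  apply ENNReal.ofReal_le_ofReal
  rw [← Finset.mul_sum]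
  have h5 : ∑ j ∈ Finset.range n, ρ ^ j ≤ (1 - ρ)⁻¹ := by
    rw [← tsum_geometric_of_lt_one hρ0.le hρ1]
    exact (summable_geometric_of_lt_one hρ0.le hρ1).sum_le_tsum _ (fun j _ => by positivity)
  calc B + B + K * B' ^ (q' / q) * ∑ j ∈ Finset.range n, ρ ^ j
      ≤ B + B + K * B' ^ (q' / q) * (1 - ρ)⁻¹ := by gcongr
    _ = _ := by ring

end Pool.Agent.Y295.SP
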