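import Mathlib
import Pool.Agent.Y295.SP.C
set_option autoImplicit false
set_option linter.unusedSectionVars false

/-! Monotone factors. -/

namespace Pool.Agent.Y295.SP

open MeasureTheory Set Complex Filter Topology
open scoped ENNReal NNReal RealInnerProductSpace
open Pool.Agent.H789R2.FR (E sg T sg_finite sg_ae)
open Pool.Agent.H438R2.PD (T_meas' P1 P2 P2_meas T_le)
open Pool.Agent.H438R2.BR (Phi J J_inner)
open Pool.Agent.W354.LS (tri tri_nonneg tri_le_one tri_zero)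
open Pool.Agent.Y295.NS (tri_cont)

variable {k m n : ℕ}

attribute [local irreducible] LL

/-- graphs are null sets -/
theorem null (hk : 2 ≤ k) (hm : 1 ≤ m) (η₁ : E k) (hη : ‖η₁‖ = 1) (R : E m → ℝ) (hR : Measurable R) :
    sg (k + m) {x | (⟪J η₁ (0 : E m), x⟫ : ℝ) = R (P2 k m x)} = 0 := by
  obtain ⟨C, hC, hnar⟩ := narrow k m hk hm
  set S : Set (E (k + m)) := {x | (⟪J η₁ (0 : E m), x⟫ : ℝ) = R (P2 k m x)} with hS
  have hSm : MeasurableSet S := measurableSet_eq_fun (in_meas _) (hR.comp (P2_meas k m))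
  have hle : ∀ c : ℝ, 0 < c → sg (k + m) S ≤ ENNReal.ofReal (C * c ^ (-(1 / 2) : ℝ)) := by
    intro c hc
    calc sg (k + m) S = ∫⁻ x, S.indicator 1 x ∂(sg (k + m)) := (lintegral_indicator_one hSm).symm
      _ ≤ ∫⁻ x, ENNReal.ofReal (tri (⟪c • (J η₁ (0 : E m)), x⟫ + (fun y => -(c * R y)) (P2 k m x)))
            ∂(sg (k + m)) := by
          apply lintegral_mono
          intro x
          simp only
          by_cases hx : x ∈ S
          · have h1 : (⟪J η₁ (0 : E m), x⟫ : ℝ) = R (P2 k m x) := hx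
            rw [indicator_of_mem hx, real_inner_smul_left, h1, add_neg_cancel, tri_zero]
            simp
          · rw [indicator_of_notMem hx]
            exact zero_le
      _ ≤ _ := hnar η₁ _ c hη (hR.const_mul c).neg hc
  have ht : Tendsto (fun c : ℝ => ENNReal.ofReal (C * c ^ (-(1 / 2) : ℝ))) atTop (𝓝 0) := by
    have h1 := (tendsto_rpow_neg_atTop (by norm_num : (0 : ℝ) < 1 / 2)).const_mul C
    rw [mul_zero] at h1
    have h2 := ENNReal.tendsto_ofReal h1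
    rwa [ENNReal.ofReal_zero] at h2
  have h1 := ge_of_tendsto ht ((eventually_gt_atTop (0 : ℝ)).mono hle)
  exact le_antisymm h1 zero_le

lemma lay_int (a : ℝ) (h0 : 0 ≤ a) (h1 : a ≤ 1) :
    ∫ l in Ioc (0 : ℝ) 1, (if l < a then (1 : ℝ) else 0) = a := by
  have e : (fun l : ℝ => if l < a then (1 : ℝ) else 0) = (Iio a).indicator (fun _ => (1 : ℝ)) := by
    ext l
    simp [indicator, mem_Iio]
  rw [e, integral_indicator measurableSet_Iio, Measure.restrict_restrict measurableSet_Iio]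
  have e2 : Iio a ∩ Ioc (0 : ℝ) 1 = Ioo 0 a := by
    ext l
    simp only [mem_inter_iff, mem_Iio, mem_Ioc, mem_Ioo]
    constructor
    · rintro ⟨h, h2, _⟩
      exact ⟨h2, h⟩
    · rintro ⟨h, h2⟩
      exact ⟨h2, h, by linarith⟩
  rw [e2]
  simp [h0]

lemma lay_meas {g : E n → ℝ} (hg : Measurable g) {K : E n → ℂ} (hK : Measurable K) :
    Measurable fun y : E n × ℝ => ((if y.2 < g y.1 then (1 : ℝ) else 0 : ℝ) : ℂ) * K y.1 := by
  refine Measurable.mul (Complex.measurable_ofReal.comp ?_) (hK.comp measurable_fst)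
  exact Measurable.ite (measurableSet_lt measurable_snd (hg.comp measurable_fst)) measurable_const
    measurable_const

lemma T_lay (g : E n → ℝ) (hg : Measurable g) (h0 : ∀ x, 0 ≤ g x) (h1 : ∀ x, g x ≤ 1) (K : E n → ℂ)
    (hK : Measurable K) (hK1 : ∀ x, ‖K x‖ ≤ 1) (z : E n) :
    T (fun x => (g x : ℂ) * K x) z =
      ∫ l in Ioc (0 : ℝ) 1, T (fun x => ((if l < g x then (1 : ℝ) else 0 : ℝ) : ℂ) * K x) z := by
  simp only [T_def]
  have hI : Integrable (Function.uncurry fun (x : E n) (l : ℝ) =>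
      ex z x * (((if l < g x then (1 : ℝ) else 0 : ℝ) : ℂ) * K x))
      ((sg n).prod (volume.restrict (Ioc (0 : ℝ) 1))) := by
    refine Integrable.mono' (integrable_const (1 : ℝ)) ?_ (ae_of_all _ fun y => ?_)
    · apply Measurable.aestronglyMeasurable
      exact ((ex_cont' z).measurable.comp measurable_fst).mul (lay_meas hg hK)
    · rw [Function.uncurry, norm_mul, norm_mul, ex_norm, one_mul, Complex.norm_real, Real.norm_eq_abs]
      refine mul_le_one₀ ?_ (norm_nonneg _) (hK1 _)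
      split_ifs <;> simp
  have hs := integral_integral_swap hI
  have e1 : ∀ x : E n, ex z x * ((g x : ℂ) * K x) =
      ∫ l in Ioc (0 : ℝ) 1, ex z x * (((if l < g x then (1 : ℝ) else 0 : ℝ) : ℂ) * K x) := by
    intro x
    rw [integral_const_mul, integral_mul_const, integral_complex_ofReal, lay_int _ (h0 x) (h1 x)]
  simp only [e1]
  exact hs

lemma level (f : ℝ → ℝ) (hf : Monotone f) (l s R : ℝ) (hs : s ∈ Icc (-1 : ℝ) 1)
    (hR : R = 1 - (volume {t : ℝ | t ∈ Icc (-1 : ℝ) 1 ∧ l < f t}).toReal) (hne : s ≠ R) :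
    l < f s ↔ R ≤ s := by
  set A : Set ℝ := {t : ℝ | t ∈ Icc (-1 : ℝ) 1 ∧ l < f t} with hA
  have hfin : volume A ≠ ∞ := by
    refine ne_top_of_le_ne_top ?_ (measure_mono (fun t ht => ht.1) : volume A ≤ volume (Icc (-1 : ℝ) 1))
    rw [Real.volume_Icc]
    exact ENNReal.ofReal_ne_top
  constructor
  · intro h
    have hsub : Icc s 1 ⊆ A := by
      intro t ht
      exact ⟨⟨hs.1.trans ht.1, ht.2⟩, h.trans_le (hf ht.1)⟩
    have h1 := ENNReal.toReal_mono hfin (measure_mono hsub)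
    rw [Real.volume_Icc, ENNReal.toReal_ofReal (by linarith [hs.2])] at h1
    linarith
  · intro h
    by_contra hc
    have hsub : A ⊆ Icc s 1 := by
      intro t ht
      refine ⟨?_, ht.1.2⟩
      by_contra hts
      have h2 := hf (not_le.1 hts).le
      exact hc (ht.2.trans_le h2)
    have h1 := ENNReal.toReal_mono (by rw [Real.volume_Icc]; exact ENNReal.ofReal_ne_top)
      (measure_mono hsub : volume A ≤ volume (Icc s 1))
    rw [Real.volume_Icc, ENNReal.toReal_ofReal (by linarith [hs.2])] at h1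
    exact hne (le_antisymm (by linarith) h)

/-- monotone factors -/
theorem mono_bd (q : ℝ) (hq : 1 ≤ q) (η : E (k + m)) (hηle : ∀ᵐ x ∂(sg (k + m)), |(⟪η, x⟫ : ℝ)| ≤ 1)
    (hnull : ∀ R : E m → ℝ, Measurable R → sg (k + m) {x | (⟪η, x⟫ : ℝ) = R (P2 k m x)} = 0)
    (G : E (k + m) → ℂ) (hG : Measurable G) (hG1 : ∀ x, ‖G x‖ ≤ 1) (A : ℝ≥0∞)
    (hthr : ∀ R : E m → ℝ, Measurable R →
      Mul k m q (fun x => ((if R (P2 k m x) ≤ (⟪η, x⟫ : ℝ) then (1 : ℝ) else 0 : ℝ) : ℂ) * G x) A)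
    (g : E m → ℝ → ℝ) (hg : Measurable (Function.uncurry g)) (h0 : ∀ y s, 0 ≤ g y s)
    (h1 : ∀ y s, g y s ≤ 1) (hmono : ∀ y, Monotone (g y)) :
    Mul k m q (fun x => ((g (P2 k m x) ⟪η, x⟫ : ℝ) : ℂ) * G x) A := by
  intro H hH hH1
  have hK : Measurable fun x : E (k + m) => H (P2 k m x) * G x := (hH.comp (P2_meas k m)).mul hG
  have hK1 : ∀ x, ‖H (P2 k m x) * G x‖ ≤ 1 := by
    intro x
    rw [norm_mul]
    exact mul_le_one₀ (hH1 _) (norm_nonneg _) (hG1 x)
  have hgm : Measurable fun x : E (k + m) => g (P2 k m x) (⟪η, x⟫ : ℝ) := by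
    have h2 : Measurable fun x : E (k + m) => (P2 k m x, (⟪η, x⟫ : ℝ)) := (P2_meas k m).prodMk (in_meas η)
    have h3 := hg.comp h2
    exact h3
  have e0 : (fun x => H (P2 k m x) * (((g (P2 k m x) ⟪η, x⟫ : ℝ) : ℂ) * G x)) =
      fun x => ((g (P2 k m x) ⟪η, x⟫ : ℝ) : ℂ) * (H (P2 k m x) * G x) := by
    ext x
    ring
  rw [e0]
  have hj := T_joint (fun (l : ℝ) (x : E (k + m)) =>
    ((if l < g (P2 k m x) (⟪η, x⟫ : ℝ) then (1 : ℝ) else 0 : ℝ) : ℂ) * (H (P2 k m x) * G x))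
    (lay_meas hgm hK)
  refine LL_mix (volume.restrict (Ioc (0 : ℝ) 1)) q hq _
    (fun l x => ((if l < g (P2 k m x) (⟪η, x⟫ : ℝ) then (1 : ℝ) else 0 : ℝ) : ℂ) * (H (P2 k m x) * G x))
    (fun _ => 1) measurable_const (by simp) hj ?_ A ?_
  · intro z
    rw [T_lay _ hgm (fun x => h0 _ _) (fun x => h1 _ _) _ hK hK1 z]
    refine (enorm_integral_le_lintegral_enorm _).trans (le_of_eq ?_)
    apply lintegral_congr
    intro l
    rw [one_mul]
  · intro l
    set R : E m → ℝ := fun y => 1 - (volume {t : ℝ | t ∈ Icc (-1 : ℝ) 1 ∧ l < g y t}).toReal with hR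
    have hRm : Measurable R := by
      have hset : MeasurableSet {p : E m × ℝ | p.2 ∈ Icc (-1 : ℝ) 1 ∧ l < g p.1 p.2} := by
        apply MeasurableSet.inter
        · exact measurableSet_Icc.preimage measurable_snd
        · exact measurableSet_lt measurable_const hg
      have h2 : Measurable fun y : E m => volume (Prod.mk y ⁻¹'
          {p : E m × ℝ | p.2 ∈ Icc (-1 : ℝ) 1 ∧ l < g p.1 p.2}) := measurable_measure_prodMk_left hset
      exact (measurable_const.sub h2.ennreal_toReal)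
    have h2 : ∀ᵐ x ∂(sg (k + m)), (⟪η, x⟫ : ℝ) ≠ R (P2 k m x) := by
      rw [ae_iff]
      simp only [ne_eq, not_not]
      exact hnull R hRm
    have hae : (fun x => ((if l < g (P2 k m x) (⟪η, x⟫ : ℝ) then (1 : ℝ) else 0 : ℝ) : ℂ) *
        (H (P2 k m x) * G x)) =ᵐ[sg (k + m)] fun x => H (P2 k m x) *
          (((if R (P2 k m x) ≤ (⟪η, x⟫ : ℝ) then (1 : ℝ) else 0 : ℝ) : ℂ) * G x) := by
      filter_upwards [h2, hηle] with x hx hx1
      have h3 := level (g (P2 k m x)) (hmono _) l (⟪η, x⟫ : ℝ) (R (P2 k m x)) (abs_le.1 hx1) rfl hx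
      simp only [h3]
      ring
    rw [LL_congr q hae]
    exact hthr R hRm H hH hH1

lemma Mul_add (q : ℝ) (hq : 1 ≤ q) (f g : E (k + m) → ℂ) (hf : Measurable f) (hg : Measurable g)
    (c d : ℝ) (hfc : ∀ x, ‖f x‖ ≤ c) (hgd : ∀ x, ‖g x‖ ≤ d) (A B : ℝ≥0∞) (hA : Mul k m q f A)
    (hB : Mul k m q g B) : Mul k m q (fun x => f x + g x) (A + B) := by
  intro H hH hH1
  have hHm : Measurable fun x : E (k + m) => H (P2 k m x) := hH.comp (P2_meas k m)
  have i1 : Integrable (fun x => H (P2 k m x) * f x) (sg (k + m)) := by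
    refine (integrable_const c).mono' (hHm.mul hf).aestronglyMeasurable (ae_of_all _ fun x => ?_)
    rw [norm_mul]
    calc ‖H (P2 k m x)‖ * ‖f x‖ ≤ 1 * ‖f x‖ := by
          gcongr
          exact hH1 _
      _ = ‖f x‖ := one_mul _
      _ ≤ c := hfc x
  have i2 : Integrable (fun x => H (P2 k m x) * g x) (sg (k + m)) := by
    refine (integrable_const d).mono' (hHm.mul hg).aestronglyMeasurable (ae_of_all _ fun x => ?_)
    rw [norm_mul]
    calc ‖H (P2 k m x)‖ * ‖g x‖ ≤ 1 * ‖g x‖ := by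
          gcongr
          exact hH1 _
      _ = ‖g x‖ := one_mul _
      _ ≤ d := hgd x
  have e : (fun x => H (P2 k m x) * (f x + g x)) = fun x => H (P2 k m x) * f x + H (P2 k m x) * g x := by
    ext x
    ring
  rw [e]
  exact (LL_add q hq _ _ i1 i2 (hHm.mul hf) (hHm.mul hg)).trans (add_le_add (hA H hH hH1) (hB H hH hH1))

lemma Mul_smul (q : ℝ) (hq : 1 ≤ q) (c : ℂ) (f : E (k + m) → ℂ) (hf : Measurable f) (A : ℝ≥0∞)
    (hA : Mul k m q f A) : Mul k m q (fun x => c * f x) (‖c‖ₑ * A) := by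
  intro H hH hH1
  have hHm : Measurable fun x : E (k + m) => H (P2 k m x) := hH.comp (P2_meas k m)
  have e : (fun x => H (P2 k m x) * (c * f x)) = fun x => c * (H (P2 k m x) * f x) := by
    ext x
    ring
  rw [e, LL_smul q hq c (fun x => H (P2 k m x) * f x) (hHm.mul hf)]
  exact mul_le_mul' le_rfl (hA H hH hH1)

/-- the class of factors -/
def Fac (m : ℕ) (g : E m → ℝ → ℂ) : Prop :=
  Measurable (Function.uncurry g) ∧ (∀ y s, ‖g y s‖ ≤ 1) ∧
  ∃ κ : E m → ℝ → ℝ, Measurable (Function.uncurry κ) ∧ (∀ y s, 0 ≤ κ y s) ∧ (∀ y s, κ y s ≤ 1) ∧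
    ∀ y s t, s ≤ t → ‖g y t - g y s‖ ≤ κ y t - κ y s

/-- general factors -/
theorem fac_bd (q : ℝ) (hq : 1 ≤ q) (η : E (k + m)) (hηle : ∀ᵐ x ∂(sg (k + m)), |(⟪η, x⟫ : ℝ)| ≤ 1)
    (hnull : ∀ R : E m → ℝ, Measurable R → sg (k + m) {x | (⟪η, x⟫ : ℝ) = R (P2 k m x)} = 0)
    (G : E (k + m) → ℂ) (hG : Measurable G) (hG1 : ∀ x, ‖G x‖ ≤ 1) (A B : ℝ) (hA : 0 ≤ A) (hB : 0 ≤ B)
    (hthr : ∀ R : E m → ℝ, Measurable R →
      Mul k m q (fun x => ((if R (P2 k m x) ≤ (⟪η, x⟫ : ℝ) then (1 : ℝ) else 0 : ℝ) : ℂ) * G x)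
        (ENNReal.ofReal A))
    (hGB : Mul k m q G (ENNReal.ofReal B))
    (g : E m → ℝ → ℂ) (hg : Fac m g) :
    Mul k m q (fun x => g (P2 k m x) ⟪η, x⟫ * G x) (ENNReal.ofReal (8 * A + 2 * B)) := by
  obtain ⟨hgm, hg1, κ, hκm, hκ0, hκ1, hκ⟩ := hg
  have hκmono : ∀ y, Monotone (κ y) := by
    intro y s t hst
    have := (norm_nonneg _).trans (hκ y s t hst)
    linarith
  set u : E m → ℝ → ℝ := fun y s => ((g y s).re + κ y s + 1) / 3 with hu
  set v : E m → ℝ → ℝ := fun y s => ((g y s).im + κ y s + 1) / 3 with hv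
  have hum : Measurable (Function.uncurry u) := by
    have h1 : Measurable fun p : E m × ℝ => (((Function.uncurry g) p).re + (Function.uncurry κ) p + 1) / 3 :=
      (((Complex.measurable_re.comp hgm).add hκm).add_const _).div_const _
    exact h1
  have hvm : Measurable (Function.uncurry v) := by
    have h1 : Measurable fun p : E m × ℝ => (((Function.uncurry g) p).im + (Function.uncurry κ) p + 1) / 3 :=
      (((Complex.measurable_im.comp hgm).add hκm).add_const _).div_const _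
    exact h1
  have hu0 : ∀ y s, 0 ≤ u y s := by
    intro y s
    have h1 := abs_le.1 ((Complex.abs_re_le_norm (g y s)).trans (hg1 y s))
    have h2 := hκ0 y s
    rw [hu]
    simp only
    linarith [h1.1]
  have hv0 : ∀ y s, 0 ≤ v y s := by
    intro y s
    have h1 := abs_le.1 ((Complex.abs_im_le_norm (g y s)).trans (hg1 y s))
    have h2 := hκ0 y s
    rw [hv]
    simp only
    linarith [h1.1]
  have hu1 : ∀ y s, u y s ≤ 1 := by
    intro y s
    have h1 := abs_le.1 ((Complex.abs_re_le_norm (g y s)).trans (hg1 y s))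
    have h2 := hκ1 y s
    rw [hu]
    simp only
    linarith [h1.2]
  have hv1 : ∀ y s, v y s ≤ 1 := by
    intro y s
    have h1 := abs_le.1 ((Complex.abs_im_le_norm (g y s)).trans (hg1 y s))
    have h2 := hκ1 y s
    rw [hv]
    simp only
    linarith [h1.2]
  have humono : ∀ y, Monotone (u y) := by
    intro y s t hst
    have h1 := (abs_le.1 ((Complex.abs_re_le_norm (g y t - g y s)).trans (hκ y s t hst))).1
    rw [Complex.sub_re] at h1
    rw [hu]
    simp only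
    linarith
  have hvmono : ∀ y, Monotone (v y) := by
    intro y s t hst
    have h1 := (abs_le.1 ((Complex.abs_im_le_norm (g y t - g y s)).trans (hκ y s t hst))).1
    rw [Complex.sub_im] at h1
    rw [hv]
    simp only
    linarith
  have bu := mono_bd q hq η hηle hnull G hG hG1 _ hthr u hum hu0 hu1 humono
  have bv := mono_bd q hq η hηle hnull G hG hG1 _ hthr v hvm hv0 hv1 hvmono
  have bκ := mono_bd q hq η hηle hnull G hG hG1 _ hthr κ hκm hκ0 hκ1 hκmono
  have hpair : Measurable fun x : E (k + m) => (P2 k m x, (⟪η, x⟫ : ℝ)) := (P2_meas k m).prodMk (in_meas η)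
  have hcm : ∀ w : E m → ℝ → ℝ, Measurable (Function.uncurry w) →
      Measurable fun x : E (k + m) => ((w (P2 k m x) ⟪η, x⟫ : ℝ) : ℂ) * G x := by
    intro w hw
    have h3 := hw.comp hpair
    exact (Complex.measurable_ofReal.comp h3).mul hG
  have hcb : ∀ w : E m → ℝ → ℝ, (∀ y s, 0 ≤ w y s) → (∀ y s, w y s ≤ 1) →
      ∀ x : E (k + m), ‖((w (P2 k m x) ⟪η, x⟫ : ℝ) : ℂ) * G x‖ ≤ 1 := by
    intro w h0 h1 x
    rw [norm_mul, Complex.norm_real, Real.norm_of_nonneg (h0 _ _)]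
    exact mul_le_one₀ (h1 _ _) (norm_nonneg _) (hG1 x)
  have mu := hcm u hum
  have mv := hcm v hvm
  have mκ := hcm κ hκm
  have nu := hcb u hu0 hu1
  have nv := hcb v hv0 hv1
  have nκ := hcb κ hκ0 hκ1
  have bb : ∀ (c : ℂ) (C : ℝ) (f : E (k + m) → ℂ), (∀ x, ‖f x‖ ≤ 1) → ‖c‖ ≤ C → ∀ x, ‖c * f x‖ ≤ C := by
    intro c C f hf hc x
    rw [norm_mul]
    calc ‖c‖ * ‖f x‖ ≤ ‖c‖ * 1 := by
          gcongr
          exact hf x
      _ ≤ C := by rw [mul_one]; exact hc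
  have bn : ∀ (c : ℂ) (C : ℝ) (f : E (k + m) → ℂ) (D : ℝ), Measurable f → 0 ≤ D → ‖c‖ ≤ C →
      Mul k m q f (ENNReal.ofReal D) → Mul k m q (fun x => c * f x) (ENNReal.ofReal (C * D)) := by
    intro c C f D hf hD hc hM H hH hH1
    refine (Mul_smul q hq c f hf _ hM H hH hH1).trans ?_
    rw [← ofReal_norm, ← ENNReal.ofReal_mul (norm_nonneg _)]
    apply ENNReal.ofReal_le_ofReal
    gcongr
  have n3 : ‖(3 : ℂ)‖ ≤ 3 := by norm_num
  have n3i : ‖(3 * I : ℂ)‖ ≤ 3 := by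
    rw [norm_mul, Complex.norm_I]
    norm_num
  have n1i : ‖(-(1 + I) : ℂ)‖ ≤ 2 := by
    rw [norm_neg]
    refine (norm_add_le _ _).trans ?_
    rw [Complex.norm_I, norm_one]
    norm_num
  have t1 := bn 3 3 _ A mu hA n3 bu
  have t2 := bn (3 * I) 3 _ A mv hA n3i bv
  have t3 := bn (-(1 + I)) 2 _ A mκ hA n1i bκ
  have t4 := bn (-(1 + I)) 2 G B hG hB n1i hGB
  have s1 := Mul_add q hq _ _ (mu.const_mul 3) (mv.const_mul (3 * I)) 3 3 (bb 3 3 _ nu n3)
    (bb _ 3 _ nv n3i) _ _ t1 t2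
  have s2 := Mul_add q hq _ _ (mκ.const_mul (-(1 + I))) (hG.const_mul (-(1 + I))) 2 2 (bb _ 2 _ nκ n1i)
    (bb _ 2 _ hG1 n1i) _ _ t3 t4
  have nb : ∀ (f h : E (k + m) → ℂ) (c d : ℝ), (∀ x, ‖f x‖ ≤ c) → (∀ x, ‖h x‖ ≤ d) →
      ∀ x, ‖f x + h x‖ ≤ c + d := fun f h c d hf hh x => (norm_add_le _ _).trans (add_le_add (hf x) (hh x))
  have s3 := Mul_add q hq _ _ ((mu.const_mul 3).add (mv.const_mul (3 * I)))
    ((mκ.const_mul (-(1 + I))).add (hG.const_mul (-(1 + I)))) (3 + 3) (2 + 2)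
    (nb _ _ 3 3 (bb 3 3 _ nu n3) (bb _ 3 _ nv n3i)) (nb _ _ 2 2 (bb _ 2 _ nκ n1i) (bb _ 2 _ hG1 n1i)) _ _ s1 s2
  intro H hH hH1
  have s4 := s3 H hH hH1
  have e : (fun x => H (P2 k m x) * (g (P2 k m x) ⟪η, x⟫ * G x)) =
      fun x => H (P2 k m x) * (3 * (((u (P2 k m x) ⟪η, x⟫ : ℝ) : ℂ) * G x) +
        3 * I * (((v (P2 k m x) ⟪η, x⟫ : ℝ) : ℂ) * G x) +
        (-(1 + I) * (((κ (P2 k m x) ⟪η, x⟫ : ℝ) : ℂ) * G x) + -(1 + I) * G x)) := by
    ext x
    have e1 : g (P2 k m x) ⟪η, x⟫ = (((g (P2 k m x) ⟪η, x⟫).re : ℝ) : ℂ) +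
        (((g (P2 k m x) ⟪η, x⟫).im : ℝ) : ℂ) * I := (Complex.re_add_im _).symm
    rw [hu, hv]
    simp only
    rw [e1]
    simp only [Complex.add_re, Complex.add_im, Complex.mul_re, Complex.mul_im, Complex.ofReal_re,
      Complex.ofReal_im, Complex.I_re, Complex.I_im]
    push_cast
    ring
  rw [e]
  refine s4.trans (le_of_eq ?_)
  rw [← ENNReal.ofReal_add (by positivity) (by positivity), ← ENNReal.ofReal_add (by positivity)
    (by positivity), ← ENNReal.ofReal_add (by positivity) (by positivity)]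
  congr 1
  ring

end Pool.Agent.Y295.SP
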