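import Mathlib
import Pool.Agent.Y295.SP.D
set_option autoImplicit false
set_option linter.unusedSectionVars false

/-! Products of factors. -/

namespace Pool.Agent.Y295.SP

open MeasureTheory Set Complex Filter Topology
open scoped ENNReal NNReal RealInnerProductSpace
open Pool.Agent.H789R2.FR (E sg T sg_finite sg_ae)
open Pool.Agent.H438R2.PD (T_meas' P1 P2 P2_meas T_le)
open Pool.Agent.H438R2.BR (Phi J J_inner)
open Pool.Agent.TH335.RF

variable {k m n : ℕ}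

attribute [local irreducible] LL

lemma unit_dir (hk : 2 ≤ k) (a : E k) : ∃ η₁ : E k, ‖η₁‖ = 1 ∧ a = ‖a‖ • η₁ := by
  by_cases ha : a = 0
  · refine ⟨EuclideanSpace.single ⟨0, by omega⟩ 1, by simp, by simp [ha]⟩
  · refine ⟨‖a‖⁻¹ • a, ?_, ?_⟩
    · rw [norm_smul, norm_inv, norm_norm, inv_mul_cancel₀ (norm_ne_zero_iff.2 ha)]
    · rw [smul_smul, mul_inv_cancel₀ (norm_ne_zero_iff.2 ha), one_smul]

lemma J_P (z : E (k + m)) : J (P1 k m z) (P2 k m z) = z := by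
  ext i
  refine Fin.addCases (fun j => ?_) (fun j => ?_) i
  · simp [J, P1, Fin.append_left]
  · simp [J, P2, Fin.append_right]

lemma in_split (η x : E (k + m)) :
    (⟪η, x⟫ : ℝ) = ⟪P1 k m η, P1 k m x⟫ + ⟪P2 k m η, P2 k m x⟫ := by
  rw [← J_inner, J_P, J_P]

lemma in_J (η₁ : E k) (x : E (k + m)) : (⟪J η₁ (0 : E m), x⟫ : ℝ) = ⟪η₁, P1 k m x⟫ := by
  rw [← J_P x, J_inner, inner_zero_left, add_zero, J_P]

/-- one more factor -/
theorem step (k m : ℕ) (hk : 2 ≤ k) (hm : 1 ≤ m) (q q' : ℝ) (hq' : 1 ≤ q') (hqq : q' < q) (B B' : ℝ)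
    (hB : 0 ≤ B) (hB' : 0 ≤ B') : ∃ B₁ : ℝ, 0 ≤ B₁ ∧ ∀ (G : E (k + m) → ℂ), Measurable G →
    (∀ x, ‖G x‖ ≤ 1) → Mul k m q G (ENNReal.ofReal B) → Mul k m q' G (ENNReal.ofReal B') →
    ∀ (η : E (k + m)) (g : E m → ℝ → ℂ), Fac m g →
    Mul k m q (fun x => g (P2 k m x) ⟪η, x⟫ * G x) (ENNReal.ofReal B₁) := by
  obtain ⟨D, hD, hthr⟩ := thr k m hk hm q q' hq' hqq
  have hBp : 0 ≤ B' ^ (q' / q) := Real.rpow_nonneg hB' _
  have hA : 0 ≤ 2 * B + D * B' ^ (q' / q) := by positivity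
  refine ⟨8 * (2 * B + D * B' ^ (q' / q)) + 2 * B, by positivity, ?_⟩
  intro G hG hG1 hM hM' η g hg
  obtain ⟨η₁, hη₁, ha⟩ := unit_dir hk (P1 k m η)
  set c : ℝ := ‖P1 k m η‖ with hc
  have hc0 : 0 ≤ c := norm_nonneg _
  set b : E m := P2 k m η with hb
  set g' : E m → ℝ → ℂ := fun y s => g y (c * s + ⟪b, y⟫) with hg'
  have hφ : Measurable fun p : E m × ℝ => (p.1, c * p.2 + (⟪b, p.1⟫ : ℝ)) := by
    have h1 : Measurable fun p : E m × ℝ => c * p.2 + (⟪b, p.1⟫ : ℝ) :=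
      (by fun_prop : Continuous fun p : E m × ℝ => c * p.2 + (⟪b, p.1⟫ : ℝ)).measurable
    exact measurable_fst.prodMk h1
  have hfac : Fac m g' := by
    obtain ⟨hgm, hg1, κ, hκm, hκ0, hκ1, hκ⟩ := hg
    refine ⟨?_, fun y s => hg1 _ _, fun y s => κ y (c * s + ⟪b, y⟫), ?_, fun y s => hκ0 _ _,
      fun y s => hκ1 _ _, ?_⟩
    · have h1 := hgm.comp hφ
      exact h1
    · have h1 := hκm.comp hφ
      exact h1
    · intro y s t hst
      apply hκ
      have := mul_le_mul_of_nonneg_left hst hc0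
      linarith
  have he : ∀ x : E (k + m), g (P2 k m x) ⟪η, x⟫ = g' (P2 k m x) ⟪J η₁ (0 : E m), x⟫ := by
    intro x
    rw [hg']
    simp only
    rw [in_J, in_split, ← hb, ha, real_inner_smul_left]
  simp only [he]
  refine fac_bd q (by linarith) (J η₁ (0 : E m)) ?_ (null hk hm η₁ hη₁) G hG hG1 _ B hA hB ?_ hM g' hfac
  · filter_upwards [sg_ae (k + m)] with x hx
    exact in_le η₁ hη₁ hx
  · intro R hR
    exact hthr η₁ R G B B' hη₁ hR hG hG1 hB hB' hM hM'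

/-- products -/
theorem prod_bd (k m : ℕ) (hk : 2 ≤ k) (hm : 1 ≤ m) (q₀ : ℝ) (hq₀ : 1 ≤ q₀)
    (base : ∀ q : ℝ, q₀ < q → ∃ B : ℝ, 0 ≤ B ∧ Mul k m q (fun _ => 1) (ENNReal.ofReal B)) (N : ℕ) :
    ∀ q : ℝ, q₀ < q → ∃ B : ℝ, 0 ≤ B ∧ ∀ (η : Fin N → E (k + m)) (g : Fin N → E m → ℝ → ℂ),
      (∀ j, Fac m (g j)) →
      Mul k m q (fun x => ∏ j, g j (P2 k m x) ⟪η j, x⟫) (ENNReal.ofReal B) := by
  induction N with
  | zero =>
    intro q hq
    obtain ⟨B, hB, h⟩ := base q hq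
    refine ⟨B, hB, fun η g hg => ?_⟩
    simp only [Finset.univ_eq_empty, Finset.prod_empty]
    exact h
  | succ N ih =>
    intro q hq
    obtain ⟨B, hB, h⟩ := ih q hq
    obtain ⟨B', hB', h'⟩ := ih ((q + q₀) / 2) (by linarith)
    obtain ⟨B₁, hB₁, h1⟩ := step k m hk hm q ((q + q₀) / 2) (by linarith) (by linarith) B B' hB hB'
    refine ⟨B₁, hB₁, fun η g hg => ?_⟩
    simp only [Fin.prod_univ_succ]
    refine h1 (fun x => ∏ j : Fin N, g j.succ (P2 k m x) ⟪η j.succ, x⟫) ?_ ?_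
      (h _ _ fun j => hg j.succ) (h' _ _ fun j => hg j.succ) (η 0) (g 0) (hg 0)
    · apply Finset.measurable_prod
      intro j _
      have h2 : Measurable fun x : E (k + m) => (P2 k m x, (⟪η j.succ, x⟫ : ℝ)) :=
        (P2_meas k m).prodMk (in_meas _)
      have h3 := (hg j.succ).1.comp h2
      exact h3
    · intro x
      rw [norm_prod]
      exact Finset.prod_le_one (fun _ _ => norm_nonneg _) fun j _ => (hg j.succ).2.1 _ _

/-- the estimate for the products -/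
theorem all_bd (k m : ℕ) (hk : 2 ≤ k) (hm : 1 ≤ m) (P q : ℝ) (hP : 2 < P) (hyp : Hyp k m P)
    (h : 1 < (q - 2) * (((k : ℝ) - 1) / 2 + 1 / (P - 2))) (N : ℕ) :
    ∃ B : ℝ, 0 ≤ B ∧ ∀ (η : Fin N → E (k + m)) (g : Fin N → E m → ℝ → ℂ),
      (∀ j, Fac m (g j)) →
      Mul k m q (fun x => ∏ j, g j (P2 k m x) ⟪η j, x⟫) (ENNReal.ofReal B) := by
  have hk' : (2 : ℝ) ≤ k := by exact_mod_cast hk
  have hP2 : 0 < P - 2 := by linarith
  set D : ℝ := ((k : ℝ) - 1) / 2 + 1 / (P - 2) with hD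
  have hD0 : 0 < D := by
    have : 0 < 1 / (P - 2) := by positivity
    have : 0 < ((k : ℝ) - 1) / 2 := by linarith
    linarith
  have hq2 : 2 + 1 / D < q := by
    have : 1 / D < q - 2 := by
      rw [div_lt_iff₀ hD0]
      exact h
    linarith
  have h1D : 0 < 1 / D := by positivity
  refine prod_bd k m hk hm (2 + 1 / D) (by linarith) ?_ N q hq2
  intro r hr
  have hr0 : 0 < r := by linarith
  have h2 : 1 < (r - 2) * D := by
    rw [← div_lt_iff₀ hD0]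
    linarith
  obtain ⟨C, hC, hT⟩ := T_bound (m := m) k hk hm P r hP hyp h2
  refine ⟨C ^ (1 / r), by positivity, ?_⟩
  intro H hH hH1
  have h3 := hT H hH hH1
  simp only [mul_one]
  have e : LL r (fun x : E (k + m) => H (P2 k m x)) =
      (∫⁻ z, ‖T (fun z : E (k + m) => H (P2 k m z)) z‖ₑ ^ r) ^ (1 / r) := by
    unfold LL
    rfl
  rw [e, ← ENNReal.ofReal_rpow_of_nonneg hC.le (by positivity)]
  exact ENNReal.rpow_le_rpow h3 (by positivity)

end Pool.Agent.Y295.SP
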